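import Mathlib

open scoped Manifold ContDiff Topology MatrixGroups

namespace Pool.Agent.Results.MP_2392aa_gt.NoGlobalLinearNhd

/-- The euclidean space of dimension `n`. -/
abbrev E (n : ℕ) := EuclideanSpace ℝ (Fin n)

/-- The standard linear action of `A ∈ SL(n,ℤ)` on `ℝ^n`. -/
noncomputable def L {n : ℕ} (A : SL(n, ℤ)) : E n →L[ℝ] E n :=
  Matrix.toEuclideanCLM (n := Fin n) (𝕜 := ℝ)
    ((A : Matrix (Fin n) (Fin n) ℤ).map (Int.cast : ℤ → ℝ))

lemma L_apply {n : ℕ} (A : SL(n, ℤ)) (x : E n) (i : Fin n) :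
    L A x i = ∑ j, ((A : Matrix (Fin n) (Fin n) ℤ) i j : ℝ) * x j := by
  simp [L, Matrix.ofLp_toEuclideanCLM, Matrix.mulVec, dotProduct]

lemma L_one {n : ℕ} : L (1 : SL(n, ℤ)) = 1 := by
  ext x i
  rw [L_apply]
  simp [Matrix.one_apply]

lemma L_mul {n : ℕ} (A B : SL(n, ℤ)) : L (A * B) = L A * L B := by
  simp only [L]
  rw [← map_mul]
  congr 1
  ext i j
  simp [Matrix.mul_apply]

/-- The elementary matrix `I + c e_{ij}` in `SL(n,ℤ)`. -/
def T {n : ℕ} (i j : Fin n) (h : i ≠ j) (c : ℤ) : SL(n, ℤ) :=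
  ⟨Matrix.transvection i j c, Matrix.det_transvection_of_ne i j h c⟩

lemma T_apply {n : ℕ} (i j : Fin n) (h : i ≠ j) (c : ℤ) (x : E n) (k : Fin n) :
    L (T i j h c) x k = x k + if k = i then (c : ℝ) * x j else 0 := by
  rw [L_apply]
  simp only [T, Matrix.transvection, Matrix.add_apply, Matrix.one_apply, Matrix.single_apply]
  simp only [Int.cast_add, Int.cast_ite, Int.cast_one, Int.cast_zero, add_mul, ite_mul, one_mul,
    zero_mul, Finset.sum_add_distrib, Finset.sum_ite_eq, Finset.mem_univ, if_true]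
  congr 1
  by_cases hk : k = i
  · subst hk
    simp
  · have : ∀ j', ¬ (i = k ∧ j = j') := fun j' h' => hk h'.1.symm
    simp [hk, this]

/-- The rank one unipotent matrix `I + w ℓᵀ`, `ℓ ⬝ w = 0`. -/
def R {n : ℕ} (w l : Fin n → ℤ) (h : l ⬝ᵥ w = 0) : SL(n, ℤ) :=
  ⟨1 + Matrix.vecMulVec w l, by
    have := Matrix.det_one_add_replicateCol_mul_replicateRow (ι := Unit) w l
    rw [Matrix.vecMulVec_eq Unit, this, h, add_zero]⟩

lemma R_apply {n : ℕ} (w l : Fin n → ℤ) (h : l ⬝ᵥ w = 0) (x : E n) (k : Fin n) :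
    L (R w l h) x k = x k + (w k : ℝ) * ∑ j, (l j : ℝ) * x j := by
  rw [L_apply]
  simp only [R, Matrix.add_apply, Matrix.one_apply, Matrix.vecMulVec_apply]
  simp only [Int.cast_add, Int.cast_ite, Int.cast_one, Int.cast_zero, add_mul, ite_mul, one_mul,
    zero_mul, Finset.sum_add_distrib, Finset.sum_ite_eq, Finset.mem_univ, if_true, Int.cast_mul]
  rw [Finset.mul_sum]
  congr 1
  exact Finset.sum_congr rfl fun j _ => by ring


/-- powers of elementary matrices -/
lemma T_pow_apply {n : ℕ} (i j : Fin n) (h : i ≠ j) (c : ℤ) (k : ℕ) (x : E n) (i' : Fin n) :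
    L (T i j h c ^ k) x i' = x i' + if i' = i then (k : ℝ) * c * x j else 0 := by
  induction k with
  | zero => simp [L_one]
  | succ k ih =>
    rw [pow_succ', L_mul]
    change L (T i j h c) (L (T i j h c ^ k) x) i' = _
    have hj : L (T i j h c ^ k) x j = x j := by
      have : ∀ k : ℕ, L (T i j h c ^ k) x j = x j := by
        intro k
        induction k with
        | zero => simp [L_one]
        | succ k ih =>
          rw [pow_succ', L_mul]
          change L (T i j h c) (L (T i j h c ^ k) x) j = _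
          rw [T_apply, ih]
          simp [h.symm]
      exact this k
    rw [T_apply, ih, hj]
    split_ifs with h1
    · push_cast
      ring
    · ring

/-- powers of rank one unipotent matrices -/
lemma R_pow_apply {n : ℕ} (w l : Fin n → ℤ) (h : l ⬝ᵥ w = 0) (k : ℕ) (x : E n) (i : Fin n) :
    L (R w l h ^ k) x i = x i + (k : ℝ) * (w i : ℝ) * ∑ j, (l j : ℝ) * x j := by
  induction k generalizing i with
  | zero => simp [L_one]
  | succ k ih =>
    rw [pow_succ', L_mul]
    change L (R w l h) (L (R w l h ^ k) x) i = _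
    rw [R_apply, ih]
    have hlw : ∑ j, (l j : ℝ) * (w j : ℝ) = 0 := by
      have := congrArg (Int.cast : ℤ → ℝ) h
      simpa [dotProduct] using this
    have hs : ∑ j, (l j : ℝ) * (L (R w l h ^ k) x) j = ∑ j, (l j : ℝ) * x j := by
      simp only [ih, mul_add, Finset.sum_add_distrib]
      have : ∑ i, (l i : ℝ) * ((k : ℝ) * (w i : ℝ) * ∑ j, (l j : ℝ) * x j) =
          (k : ℝ) * (∑ j, (l j : ℝ) * x j) * ∑ j, (l j : ℝ) * (w j : ℝ) := by
        rw [Finset.mul_sum]
        exact Finset.sum_congr rfl fun j _ => by ring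
      rw [this, hlw]
      ring
    rw [hs]
    push_cast
    ring

/-- The first coordinate vector scaled by `t`. -/
noncomputable def ax {m : ℕ} (t : ℝ) : E (m + 2) := EuclideanSpace.single 0 t

lemma ax_apply {m : ℕ} (t : ℝ) (k : Fin (m + 2)) : (ax t : E (m + 2)) k = if k = 0 then t else 0 := by
  simp [ax]

lemma continuous_ax {m : ℕ} : Continuous (ax : ℝ → E (m + 2)) := by
  have : (ax : ℝ → E (m + 2)) = fun t => t • (EuclideanSpace.single 0 (1 : ℝ)) := by
    funext t
    ext k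
    simp [ax_apply]
  rw [this]
  fun_prop

/-- The point `(a, s, 0, …, 0)`. -/
noncomputable def pt {m : ℕ} (a s : ℝ) : E (m + 2) :=
  EuclideanSpace.single 0 a + EuclideanSpace.single 1 s

lemma pt_apply {m : ℕ} (a s : ℝ) (k : Fin (m + 2)) :
    (pt a s : E (m + 2)) k = (if k = 0 then a else 0) + (if k = 1 then s else 0) := by
  simp [pt]

lemma pt_tendsto {m : ℕ} (a : ℝ) {s : ℕ → ℝ} (hs : Filter.Tendsto s Filter.atTop (𝓝 0)) :
    Filter.Tendsto (fun k => (pt a (s k) : E (m + 2))) Filter.atTop (𝓝 (ax a)) := by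
  have h1 : (fun k => (pt a (s k) : E (m + 2))) =
      fun k => EuclideanSpace.single 0 a + (s k) • (EuclideanSpace.single 1 (1 : ℝ)) := by
    funext k
    ext i
    simp [pt_apply]
  rw [h1]
  have h2 : (ax a : E (m + 2)) = EuclideanSpace.single 0 a + (0 : ℝ) • (EuclideanSpace.single 1 (1 : ℝ)) := by
    simp [ax]
  rw [h2]
  exact Filter.Tendsto.add tendsto_const_nhds (Filter.Tendsto.smul hs tendsto_const_nhds)

lemma zero_ne_one_fin {m : ℕ} : (0 : Fin (m + 2)) ≠ 1 := by
  simp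

/-- The heart of the matter: there is no equivariant homeomorphism from an open invariant
neighbourhood `U` of the origin which misses `±e_0` onto the whole space. -/
theorem core {m : ℕ} (Γ : Subgroup SL(m + 2, ℤ)) (hΓ : ∀ A : SL(m + 2, ℤ), ∃ k : ℕ, 0 < k ∧ A ^ k ∈ Γ)
    (U : Set (E (m + 2))) (hU : IsOpen U) (F G : E (m + 2) → E (m + 2))
    (hF : ContinuousOn F U) (hG : Continuous G) (hGU : ∀ y, G y ∈ U) (hFG : ∀ y, F (G y) = y)
    (hGF : ∀ x ∈ U, G (F x) = x)
    (hinv : ∀ A ∈ Γ, ∀ x ∈ U, L A x ∈ U)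
    (heq : ∀ A ∈ Γ, ∀ x ∈ U, F (L A x) = L A (F x))
    (h0 : (0 : E (m + 2)) ∈ U) (h1 : ax 1 ∉ U) (h1' : ax (-1) ∉ U) : False := by
  -- equivariance of G
  have heqG : ∀ A ∈ Γ, ∀ y, G (L A y) = L A (G y) := by
    intro A hA y
    have := heq A hA (G y) (hGU y)
    rw [hFG] at this
    rw [← this, hGF _ (hinv A hA _ (hGU y))]
  -- fixed vectors
  have hfix : ∀ z : E (m + 2), (∀ A ∈ Γ, ∀ j : Fin (m + 2), ∀ h : (0 : Fin (m + 2)) ≠ j, ∀ k : ℕ,
      A = T 0 j h 1 ^ k → L A z = z) → z = ax (z 0) := by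
    intro z hz
    ext k
    rw [ax_apply]
    split_ifs with hk
    · rw [hk]
    · have h' : (0 : Fin (m + 2)) ≠ k := fun h => hk h.symm
      obtain ⟨q, hq, hqΓ⟩ := hΓ (T 0 k h' 1)
      have := congrArg (fun v : E (m + 2) => v 0) (hz _ hqΓ k h' q rfl)
      simp only [T_pow_apply] at this
      simp at this
      rcases this with h | h
      · omega
      · exact h
  have haxfix : ∀ (t : ℝ), ∀ A ∈ Γ, ∀ j : Fin (m + 2), ∀ h : (0 : Fin (m + 2)) ≠ j, ∀ k : ℕ,
      A = T 0 j h 1 ^ k → L A (ax t : E (m + 2)) = ax t := by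
    intro t A _ j h k hAk
    subst hAk
    ext i
    rw [T_pow_apply]
    simp [ax_apply, h.symm]
  -- G maps the axis to the axis
  have hGax : ∀ s : ℝ, G (ax s) = ax (G (ax s) 0) := by
    intro s
    apply hfix
    intro A hA j h k hk
    rw [← heqG A hA, haxfix s A hA j h k hk]
  -- F maps the axis to the axis
  have hFax : ∀ t : ℝ, ax t ∈ U → F (ax t) = ax (F (ax t) 0) := by
    intro t ht
    apply hfix
    intro A hA j h k hk
    rw [← heq A hA _ ht, haxfix t A hA j h k hk]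
  -- F 0 = 0
  have hL0 : ∀ A : SL(m + 2, ℤ), L A (0 : E (m + 2)) = 0 := fun A => map_zero _
  have hax0 : (ax 0 : E (m + 2)) = 0 := by ext k; simp [ax_apply]
  have hF0 : F 0 = 0 := by
    have h1 : F 0 = ax (F 0 0) := by
      have := hFax 0 (by rw [hax0]; exact h0)
      rwa [hax0] at this
    obtain ⟨q, hq, hqΓ⟩ := hΓ (T 1 0 zero_ne_one_fin.symm 1)
    have h2 := heq _ hqΓ 0 h0
    rw [hL0] at h2
    have h3 := congrArg (fun v : E (m + 2) => v 1) h2
    simp only [T_pow_apply] at h3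
    simp at h3
    have h4 : F 0 0 = 0 := by
      rcases h3 with h | h
      · omega
      · exact h
    rw [h1, h4, hax0]
  have hG0 : G 0 = 0 := by
    have := hGF 0 h0
    rwa [hF0] at this
  -- the map t
  set t : ℝ → ℝ := fun s => G (ax s) 0 with ht
  have htc : Continuous t := by
    have : Continuous fun s : ℝ => G (ax s : E (m + 2)) := hG.comp continuous_ax
    exact (EuclideanSpace.proj (𝕜 := ℝ) (0 : Fin (m + 2))).continuous.comp this
  have htU : ∀ s, ax (t s) ∈ U := fun s => by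
    have := hGU (ax s)
    rw [hGax s] at this
    exact this
  have ht0 : t 0 = 0 := by
    simp only [ht]
    rw [hax0, hG0]
    rfl
  have htF : ∀ s, F (ax (t s)) = ax s := by
    intro s
    have := hFG (ax s)
    rwa [hGax s] at this
  have hlt : ∀ s, |t s| < 1 := by
    intro s
    by_contra hcon
    push Not at hcon
    have hmem : (1 : ℝ) ∈ (fun u => |t u|) '' (Set.uIcc 0 s) := by
      have hc : ContinuousOn (fun u => |t u|) (Set.uIcc 0 s) := (htc.abs).continuousOn
      have := intermediate_value_uIcc hc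
      apply this
      rw [Set.mem_uIcc]
      left
      simp [ht0, hcon]
    obtain ⟨u, -, hu⟩ := hmem
    simp only at hu
    have hu' := htU u
    rcases (abs_eq (zero_le_one)).1 hu with h | h
    · rw [h] at hu'
      exact h1 hu'
    · rw [h] at hu'
      exact h1' hu'
  -- a power of the shear in the group
  obtain ⟨q0, hq0, hq0Γ⟩ := hΓ (T 0 1 zero_ne_one_fin 1)
  have hq0' : (q0 : ℝ) ≠ 0 := by positivity
  -- key homogeneity
  have hkey : ∀ (a : ℝ) (c : ℤ) (d : ℕ), 0 < d → ax a ∈ U → ax (a * (1 + c / d)) ∈ U →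
      F (ax (a * (1 + c / d))) 0 = (1 + c / d) * F (ax a) 0 := by
    intro a c d hd ha hra
    have hd' : (d : ℝ) ≠ 0 := by positivity
    let s : ℕ → ℝ := fun k => a * c / (d * (q0 * (k + 1)))
    have hs : Filter.Tendsto s Filter.atTop (𝓝 0) := by
      have h1 : Filter.Tendsto (fun k : ℕ => (a * c / (d * q0)) * (1 / ((k : ℝ) + 1))) Filter.atTop
          (𝓝 ((a * c / (d * q0)) * 0)) :=
        Filter.Tendsto.mul tendsto_const_nhds tendsto_one_div_add_atTop_nhds_zero_nat
      rw [mul_zero] at h1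
      refine h1.congr fun k => ?_
      simp only [s]
      field_simp
    have hx : Filter.Tendsto (fun k => (pt a (s k) : E (m + 2))) Filter.atTop (𝓝 (ax a)) :=
      pt_tendsto a hs
    have hx' : Filter.Tendsto (fun k => (pt (a * (1 + c / d)) (s k) : E (m + 2))) Filter.atTop
        (𝓝 (ax (a * (1 + c / d)))) := pt_tendsto _ hs
    have hxU : ∀ᶠ k in Filter.atTop, (pt a (s k) : E (m + 2)) ∈ U := hx.eventually (hU.mem_nhds ha)
    have hFx : Filter.Tendsto (fun k => F (pt a (s k) : E (m + 2)) 0) Filter.atTop (𝓝 (F (ax a) 0)) := by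
      have h := (hF.continuousAt (hU.mem_nhds ha)).tendsto.comp hx
      exact ((EuclideanSpace.proj (𝕜 := ℝ) (0 : Fin (m + 2))).continuous.tendsto _).comp h
    have hFx' : Filter.Tendsto (fun k => F (pt (a * (1 + c / d)) (s k) : E (m + 2)) 0) Filter.atTop
        (𝓝 (F (ax (a * (1 + c / d))) 0)) := by
      have h := (hF.continuousAt (hU.mem_nhds hra)).tendsto.comp hx'
      exact ((EuclideanSpace.proj (𝕜 := ℝ) (0 : Fin (m + 2))).continuous.tendsto _).comp h
    have hrel : ∀ᶠ k in Filter.atTop, F (pt (a * (1 + c / d)) (s k) : E (m + 2)) 0 =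
        (1 + c / d) * F (pt a (s k) : E (m + 2)) 0 := by
      filter_upwards [hxU] with k hk
      set y := F (pt a (s k) : E (m + 2)) with hy
      -- the unipotent matrix fixing the line of the point
      let w : Fin (m + 2) → ℤ := fun i => if i = 0 then d * (q0 * (k + 1)) else if i = 1 then c else 0
      let l : Fin (m + 2) → ℤ := fun i => if i = 0 then c else if i = 1 then -(d * (q0 * (k + 1))) else 0
      have hsum : ∀ f g : Fin (m + 2) → ℝ, (∀ i, i ≠ 0 → i ≠ 1 → f i = 0) →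
          ∑ i, f i * g i = f 0 * g 0 + f 1 * g 1 := by
        intro f g hf
        rw [← Finset.sum_subset (Finset.subset_univ {(0 : Fin (m + 2)), 1})]
        · rw [Finset.sum_pair zero_ne_one_fin]
        · intro i _ hi
          simp only [Finset.mem_insert, Finset.mem_singleton, not_or] at hi
          rw [hf i hi.1 hi.2, zero_mul]
      have hlw : l ⬝ᵥ w = 0 := by
        have h : ((l ⬝ᵥ w : ℤ) : ℝ) = 0 := by
          simp only [dotProduct]
          push_cast
          rw [hsum (fun i => (l i : ℝ)) (fun i => (w i : ℝ)) (by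
            intro i h0 h1; simp [l, h0, h1])]
          simp [l, w]
          ring
        exact_mod_cast h
      obtain ⟨p, hp, hpΓ⟩ := hΓ (R w l hlw)
      have hp' : (p : ℝ) ≠ 0 := by positivity
      have hfixx : L (R w l hlw ^ p) (pt a (s k) : E (m + 2)) = pt a (s k) := by
        ext i
        rw [R_pow_apply]
        rw [hsum (fun i => (l i : ℝ)) (fun i => (pt a (s k) : E (m + 2)) i) (by
            intro i h0 h1; simp [l, h0, h1])]
        have : (l 0 : ℝ) * (pt a (s k) : E (m + 2)) 0 + (l 1 : ℝ) * (pt a (s k) : E (m + 2)) 1 = 0 := by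
          simp only [pt_apply, l, s]
          simp
          field_simp
          ring
        rw [this]
        ring
      have hfixy : L (R w l hlw ^ p) y = y := by
        rw [hy, ← heq _ hpΓ _ hk, hfixx]
      have hy1 : (d : ℝ) * (q0 * (k + 1)) * y 1 = c * y 0 := by
        have h := congrArg (fun v : E (m + 2) => v 0) hfixy
        simp only [R_pow_apply] at h
        rw [hsum (fun i => (l i : ℝ)) (fun i => y i) (by
            intro i h0 h1; simp [l, h0, h1])] at h
        have hw0 : (w 0 : ℝ) ≠ 0 := by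
          have : (w 0 : ℝ) = d * (q0 * (k + 1)) := by simp [w]
          rw [this]
          positivity
        have h2 : (p : ℝ) * (w 0 : ℝ) * ((l 0 : ℝ) * y 0 + (l 1 : ℝ) * y 1) = 0 := by linarith
        have h3 : (l 0 : ℝ) * y 0 + (l 1 : ℝ) * y 1 = 0 := by
          rcases mul_eq_zero.1 h2 with h4 | h4
          · exact absurd h4 (mul_ne_zero hp' hw0)
          · exact h4
        simp [l] at h3
        linarith
      -- the shear
      have hsh : L ((T 0 1 zero_ne_one_fin 1) ^ (q0 * (k + 1))) (pt a (s k) : E (m + 2)) =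
          pt (a * (1 + c / d)) (s k) := by
        ext i
        rw [T_pow_apply]
        simp only [pt_apply, s]
        by_cases hi : i = 0
        · subst hi
          simp
          field_simp
        · simp [hi]
      have hshΓ : (T 0 1 zero_ne_one_fin 1 : SL(m + 2, ℤ)) ^ (q0 * (k + 1)) ∈ Γ := by
        rw [pow_mul]
        exact Γ.pow_mem hq0Γ _
      have hFsh := heq _ hshΓ _ hk
      rw [hsh] at hFsh
      rw [hFsh, T_pow_apply]
      rw [← hy]
      have hk1 : ((q0 : ℝ) * ((k : ℝ) + 1)) * y 1 = c / d * y 0 := by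
        field_simp
        linarith
      push_cast
      simp
      rw [hk1]
      ring
    have hlim : Filter.Tendsto (fun k => (1 + (c : ℝ) / d) * F (pt a (s k) : E (m + 2)) 0) Filter.atTop
        (𝓝 ((1 + c / d) * F (ax a) 0)) := Filter.Tendsto.mul tendsto_const_nhds hFx
    exact tendsto_nhds_unique hFx' (hlim.congr' (hrel.mono fun k hk => hk.symm))
  -- conclusion
  set a := t 1 with ha
  have haU : ax a ∈ U := htU 1
  have hFa : F (ax a) 0 = 1 := by
    rw [htF 1, ax_apply]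
    simp
  have ha0 : a ≠ 0 := by
    intro h
    rw [h, hax0, hF0] at hFa
    simp at hFa
  set b := t (1 / |a|) with hb
  have hbU : ax b ∈ U := htU _
  have hFb : F (ax b) 0 = 1 / |a| := by
    rw [htF, ax_apply]
    simp
  -- rational approximations of b / a
  have hdense : ∃ q : ℕ → ℚ, Filter.Tendsto (fun k => (q k : ℝ)) Filter.atTop (𝓝 (b / a)) := by
    have h := Rat.denseRange_cast (𝕜 := ℝ) (b / a)
    rw [mem_closure_iff_seq_limit] at h
    obtain ⟨x, hx, hxl⟩ := h
    choose q hq using hx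
    refine ⟨q, ?_⟩
    simpa [hq] using hxl
  obtain ⟨q, hq⟩ := hdense
  have hqa : Filter.Tendsto (fun k => (ax (a * (q k : ℝ)) : E (m + 2))) Filter.atTop (𝓝 (ax b)) := by
    have h1 : Filter.Tendsto (fun k => a * (q k : ℝ)) Filter.atTop (𝓝 (a * (b / a))) :=
      Filter.Tendsto.mul tendsto_const_nhds hq
    rw [mul_div_cancel₀ _ ha0] at h1
    exact (continuous_ax.tendsto _).comp h1
  have hqU : ∀ᶠ k in Filter.atTop, (ax (a * (q k : ℝ)) : E (m + 2)) ∈ U :=
    hqa.eventually (hU.mem_nhds hbU)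
  have hval : ∀ᶠ k in Filter.atTop, F (ax (a * (q k : ℝ)) : E (m + 2)) 0 = q k := by
    filter_upwards [hqU] with k hk
    have hqk : (q k : ℝ) = 1 + (((q k).num - (q k).den : ℤ) : ℝ) / ((q k).den : ℝ) := by
      have hden : ((q k).den : ℝ) ≠ 0 := by
        have := (q k).pos
        positivity
      have : (q k : ℝ) = (q k).num / (q k).den := Rat.cast_def _
      rw [this]
      push_cast
      field_simp
      ring
    have := hkey a ((q k).num - (q k).den) (q k).den (q k).pos haU (by rw [← hqk]; exact hk)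
    rw [← hqk, hFa, mul_one] at this
    exact this
  have hlim1 : Filter.Tendsto (fun k => F (ax (a * (q k : ℝ)) : E (m + 2)) 0) Filter.atTop
      (𝓝 (F (ax b) 0)) := by
    have h := (hF.continuousAt (hU.mem_nhds hbU)).tendsto.comp hqa
    exact ((EuclideanSpace.proj (𝕜 := ℝ) (0 : Fin (m + 2))).continuous.tendsto _).comp h
  have hlim2 : Filter.Tendsto (fun k => F (ax (a * (q k : ℝ)) : E (m + 2)) 0) Filter.atTop
      (𝓝 (b / a)) := hq.congr' (hval.mono fun k hk => hk.symm)
  have hab := tendsto_nhds_unique hlim1 hlim2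
  rw [hFb] at hab
  have hb1 : |b| = 1 := by
    have h := congrArg abs hab
    rw [abs_div, abs_div, abs_abs, abs_one] at h
    have hapos : 0 < |a| := abs_pos.2 ha0
    field_simp at h
    linarith
  have := hlt (1 / |a|)
  rw [← hb, hb1] at this
  exact lt_irrefl _ this


/-! ### Definitions used in the statement -/

section Defs

variable {n : ℕ} (G : Type) [Group G] {M : Type} [TopologicalSpace M]
  [ChartedSpace (EuclideanSpace ℝ (Fin n)) M] [MulAction G M]

/-- The derivative representation at `p`: the derivative at `p` of an element of the stabilizer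
of `p`, an endomorphism of the tangent space at `p`, which is `ℝ^n`. -/
noncomputable def derivRep (p : M) (γ : MulAction.stabilizer G p) :
    EuclideanSpace ℝ (Fin n) →L[ℝ] EuclideanSpace ℝ (Fin n) :=
  mfderiv (𝓡 n) (𝓡 n) (fun x : M => (γ : G) • x) p

/-- `p` is periodic (its orbit is finite) and isolated (it has a neighbourhood containing no
other point fixed by the stabilizer of `p`). -/
def IsIsolatedPeriodic (p : M) : Prop :=
  (MulAction.orbit G p).Finite ∧
    ∃ V ∈ 𝓝 p, ∀ x ∈ V, (∀ γ ∈ MulAction.stabilizer G p, γ • x = x) → x = p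

/-- The derivative at `p` is unbounded. -/
def HasUnboundedDeriv (p : M) : Prop :=
  ¬ Bornology.IsBounded (Set.range (derivRep (n := n) G p))

/-- The action is smoothly linearizable near `p`. -/
def IsLinearizableNear (p : M) : Prop :=
  ∃ (V : Set M) (φ : M → EuclideanSpace ℝ (Fin n)) (ψ : EuclideanSpace ℝ (Fin n) → M),
    IsOpen V ∧ p ∈ V ∧ IsOpen (φ '' V) ∧ φ p = 0 ∧
    ContMDiffOn (𝓡 n) (𝓡 n) ∞ φ V ∧ ContMDiffOn (𝓡 n) (𝓡 n) ∞ ψ (φ '' V) ∧
    (∀ x ∈ V, ψ (φ x) = x) ∧
    ∀ γ : MulAction.stabilizer G p, ∀ x ∈ V, (γ : G) • x ∈ V →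
      φ ((γ : G) • x) = derivRep G p γ (φ x)

/-- There is an open neighbourhood `U` of `p`, invariant under the stabilizer of `p`, on which the
action of the stabilizer is conjugate, by a homeomorphism `φ : U → ℝ^n` with inverse `ψ`, to the
linear action on all of `ℝ^n` given by the derivative representation. -/
def HasInvariantLinearNhd (p : M) : Prop :=
  ∃ (U : Set M) (φ : M → EuclideanSpace ℝ (Fin n)) (ψ : EuclideanSpace ℝ (Fin n) → M),
    IsOpen U ∧ p ∈ U ∧ (∀ γ ∈ MulAction.stabilizer G p, ∀ x ∈ U, γ • x ∈ U) ∧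
    ContinuousOn φ U ∧ Continuous ψ ∧ (∀ y, ψ y ∈ U) ∧
    (∀ x ∈ U, ψ (φ x) = x) ∧ (∀ y, φ (ψ y) = y) ∧
    ∀ γ : MulAction.stabilizer G p, ∀ x ∈ U, φ ((γ : G) • x) = derivRep G p γ (φ x)

end Defs

/-! ### The manifold -/

/-- The open set `ℝ^n` minus the nonzero integer points. -/
def Mset (n : ℕ) : TopologicalSpace.Opens (E n) where
  carrier := {x | (∀ i, ∃ k : ℤ, x i = k) → x = 0}
  is_open' := by
    have h : {x : E n | (∀ i, ∃ k : ℤ, x i = k) → x = 0} =
        Metric.ball 0 1 ∪ ⋃ i : Fin n, (fun x : E n => x i) ⁻¹' (Set.range (Int.cast : ℤ → ℝ))ᶜ := by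
      ext x
      simp only [Set.mem_ofPred_eq, Set.mem_union, Metric.mem_ball, dist_zero_right, Set.mem_iUnion,
        Set.mem_preimage, Set.mem_compl_iff, Set.mem_range, not_exists]
      constructor
      · intro hx
        by_cases hx' : ∀ i, ∃ k : ℤ, x i = k
        · left
          rw [hx hx']
          simp
        · right
          push Not at hx'
          obtain ⟨i, hi⟩ := hx'
          exact ⟨i, fun k hk => hi k hk.symm⟩
      · rintro (hx | ⟨i, hi⟩) hint
        · ext i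
          obtain ⟨k, hk⟩ := hint i
          have h1 : ‖x i‖ ≤ ‖x‖ := PiLp.norm_apply_le x i
          have h2 : ‖x i‖ < 1 := lt_of_le_of_lt h1 hx
          rw [hk] at h2
          rw [Real.norm_eq_abs, ← Int.cast_abs] at h2
          have h3 : |k| < 1 := by exact_mod_cast h2
          have h4 : k = 0 := Int.abs_lt_one_iff.1 h3
          rw [hk, h4]
          simp
        · obtain ⟨k, hk⟩ := hint i
          exact absurd hk.symm (hi k)
    rw [h]
    refine IsOpen.union Metric.isOpen_ball (isOpen_iUnion fun i => ?_)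
    refine IsOpen.preimage ?_ (Int.isClosedEmbedding_coe_real.isClosed_range.isOpen_compl)
    exact (EuclideanSpace.proj (𝕜 := ℝ) i).continuous

lemma mem_Mset {n : ℕ} {x : E n} : x ∈ Mset n ↔ ((∀ i, ∃ k : ℤ, x i = k) → x = 0) := Iff.rfl

lemma L_inv_L {n : ℕ} (A : SL(n, ℤ)) (x : E n) : L A⁻¹ (L A x) = x := by
  have : L (A⁻¹ * A) x = L A⁻¹ (L A x) := by rw [L_mul]; rfl
  rw [← this, inv_mul_cancel, L_one]
  rfl

lemma L_int {n : ℕ} (A : SL(n, ℤ)) {x : E n} (hx : ∀ i, ∃ k : ℤ, x i = k) :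
    ∀ i, ∃ k : ℤ, L A x i = k := by
  intro i
  choose k hk using hx
  refine ⟨∑ j, (A : Matrix (Fin n) (Fin n) ℤ) i j * k j, ?_⟩
  rw [L_apply]
  push_cast
  exact Finset.sum_congr rfl fun j _ => by rw [hk]

lemma L_mem_Mset {n : ℕ} (A : SL(n, ℤ)) {x : E n} (hx : x ∈ Mset n) : L A x ∈ Mset n := by
  rw [mem_Mset] at *
  intro h
  have h1 := L_int A⁻¹ h
  rw [L_inv_L] at h1
  rw [hx h1, map_zero]

/-- The action of `SL(n,ℤ)` on the manifold by linear maps. -/
noncomputable instance instAct (n : ℕ) : MulAction SL(n, ℤ) (Mset n) where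
  smul A x := ⟨L A x.1, L_mem_Mset A x.2⟩
  one_smul x := Subtype.ext (by change L 1 x.1 = x.1; rw [L_one]; rfl)
  mul_smul A B x := Subtype.ext (by change L (A * B) x.1 = L A (L B x.1); rw [L_mul]; rfl)

lemma smul_val {n : ℕ} (A : SL(n, ℤ)) (x : Mset n) : (A • x).1 = L A x.1 := rfl

lemma val_symm_eventually {n : ℕ} (x : Mset n) :
    ∀ᶠ y in 𝓝 (x : E n), (((chartAt (E n) x).symm y : Mset n) : E n) = y := by
  have h := TopologicalSpace.Opens.chartAt_subtype_val_symm_eventuallyEq (H := E n) (Mset n) (x := x)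
  have h' : (chartAt (E n) (x : E n)) (x : E n) = x := rfl
  rw [h'] at h
  exact h.symm

lemma hasMFDerivAt_smul {n : ℕ} (A : SL(n, ℤ)) (x : Mset n) :
    HasMFDerivAt (𝓡 n) (𝓡 n) (fun y : Mset n => A • y) x (L A) := by
  refine ⟨?_, ?_⟩
  · have : Continuous fun y : Mset n => A • y := by
      apply Continuous.subtype_mk
      exact (L A).continuous.comp continuous_subtype_val
    exact this.continuousAt
  · have h1 : (fun y : E n => L A y) =ᶠ[𝓝 (x : E n)]
        writtenInExtChartAt (𝓡 n) (𝓡 n) x (fun y : Mset n => A • y) := by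
      filter_upwards [val_symm_eventually x] with y hy
      change L A y = L A (((chartAt (E n) x).symm y : Mset n) : E n)
      rw [hy]
    have h2 : HasFDerivAt (fun y : E n => L A y) (L A) (x : E n) := (L A).hasFDerivAt
    exact (h2.congr_of_eventuallyEq h1.symm).hasFDerivWithinAt


lemma exists_pow_mem {m : ℕ} (Γ : Subgroup SL(m, ℤ)) (hΓ : Γ.index ≠ 0) (A : SL(m, ℤ)) :
    ∃ k : ℕ, 0 < k ∧ A ^ k ∈ Γ := by
  obtain ⟨k, hk, -, h⟩ := Subgroup.exists_pow_mem_of_index_ne_zero hΓ A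
  exact ⟨k, hk, h⟩

lemma zero_mem_Mset {n : ℕ} : (0 : E n) ∈ Mset n := fun _ => rfl

/-- The base point. -/
def origin (n : ℕ) : Mset n := ⟨0, zero_mem_Mset⟩

lemma smul_origin {n : ℕ} (Γ : Subgroup SL(n, ℤ)) (γ : Γ) : γ • origin n = origin n := by
  apply Subtype.ext
  change L (γ : SL(n, ℤ)) 0 = 0
  exact map_zero _

lemma derivRep_eq {n : ℕ} (Γ : Subgroup SL(n, ℤ)) (γ : MulAction.stabilizer Γ (origin n)) :
    derivRep (n := n) Γ (origin n) γ = L ((γ : Γ) : SL(n, ℤ)) :=
  (hasMFDerivAt_smul ((γ : Γ) : SL(n, ℤ)) (origin n)).mfderiv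

lemma contMDiff_to_opens {n : ℕ} {M : Type*} [TopologicalSpace M] [ChartedSpace (E n) M]
    {U : TopologicalSpace.Opens (E n)} {f : M → U} {x : M}
    (h : ContMDiffAt (𝓡 n) (𝓡 n) ∞ (fun y => (f y : E n)) x) : ContMDiffAt (𝓡 n) (𝓡 n) ∞ f x :=
  (ChartedSpace.liftPropWithinAt_subtypeVal_comp_iff f Set.univ x).1 h


lemma infinite_orbit {m : ℕ} (Γ : Subgroup SL(m + 2, ℤ)) (hΓ : Γ.index ≠ 0) (x : Mset (m + 2))
    (hx : (MulAction.orbit Γ x).Finite) : x = origin (m + 2) := by
  apply Subtype.ext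
  change (x : E (m + 2)) = 0
  ext j
  change (x : E (m + 2)) j = 0
  by_contra hj
  -- choose an index different from `j`
  obtain ⟨i, hij⟩ : ∃ i : Fin (m + 2), i ≠ j := exists_ne j
  obtain ⟨q, hq, hqΓ⟩ := exists_pow_mem Γ hΓ (T i j hij 1)
  have hinj : Function.Injective (fun k : ℕ => ((⟨_, Γ.pow_mem hqΓ k⟩ : Γ) • x : Mset (m + 2))) := by
    intro k k' hkk
    have h1 := congrArg (fun v : Mset (m + 2) => (v : E (m + 2)) i) hkk
    change L ((T i j hij 1 ^ q) ^ k) (x : E (m + 2)) i = L ((T i j hij 1 ^ q) ^ k') (x : E (m + 2)) i at h1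
    rw [← pow_mul, ← pow_mul, T_pow_apply, T_pow_apply] at h1
    simp at h1
    rcases h1 with h | h
    · rcases h with h | h
      · exact h
      · omega
    · exact absurd h hj
  have hinf : (Set.range (fun k : ℕ => ((⟨_, Γ.pow_mem hqΓ k⟩ : Γ) • x : Mset (m + 2)))).Infinite :=
    Set.infinite_range_of_injective hinj
  refine hinf (hx.subset ?_)
  rintro _ ⟨k, rfl⟩
  exact ⟨_, rfl⟩

lemma unbounded_deriv {m : ℕ} (Γ : Subgroup SL(m + 2, ℤ)) (hΓ : Γ.index ≠ 0) :
    HasUnboundedDeriv (n := m + 2) Γ (origin (m + 2)) := by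
  intro hb
  obtain ⟨C, hC⟩ := hb.exists_norm_le
  obtain ⟨q, hq, hqΓ⟩ := exists_pow_mem Γ hΓ (T 0 1 zero_ne_one_fin 1)
  have hstab : ∀ γ : Γ, γ ∈ MulAction.stabilizer Γ (origin (m + 2)) := fun γ => smul_origin Γ γ
  have key : ∀ k : ℕ, (k : ℝ) ≤ C * ‖(EuclideanSpace.single 1 1 : E (m + 2))‖ := by
    intro k
    have h1 := hC _ ⟨⟨⟨_, Γ.pow_mem hqΓ k⟩, hstab _⟩, rfl⟩
    rw [derivRep_eq] at h1
    have h2 : ‖L ((T 0 1 zero_ne_one_fin 1 ^ q) ^ k) (EuclideanSpace.single 1 1 : E (m + 2))‖ ≤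
        C * ‖(EuclideanSpace.single 1 1 : E (m + 2))‖ :=
      (ContinuousLinearMap.le_opNorm _ _).trans (mul_le_mul_of_nonneg_right h1 (norm_nonneg _))
    have h3 := PiLp.norm_apply_le
      (L ((T 0 1 zero_ne_one_fin 1 ^ q) ^ k) (EuclideanSpace.single 1 1 : E (m + 2))) 0
    rw [← pow_mul, T_pow_apply] at h3
    simp at h3
    have h4 : (k : ℝ) ≤ (q : ℝ) * k := by
      have : (1 : ℝ) ≤ q := by exact_mod_cast hq
      nlinarith [Nat.cast_nonneg (α := ℝ) k]
    rw [← pow_mul] at h2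
    linarith
  obtain ⟨k, hk⟩ := exists_nat_gt (C * ‖(EuclideanSpace.single 1 1 : E (m + 2))‖)
  exact absurd (key k) (not_le.2 hk)

lemma contMDiff_smul {n : ℕ} (A : SL(n, ℤ)) : ContMDiff (𝓡 n) (𝓡 n) ∞ (fun y : Mset n => A • y) := by
  intro x
  apply contMDiff_to_opens
  change ContMDiffAt (𝓡 n) (𝓡 n) ∞ (fun y : Mset n => L A (y : E n)) x
  exact (((L A).contMDiff).comp contMDiff_subtype_val).contMDiffAt

lemma linearizable {m : ℕ} (Γ : Subgroup SL(m + 2, ℤ)) :
    IsLinearizableNear (n := m + 2) Γ (origin (m + 2)) := by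
  classical
  refine ⟨Set.univ, Subtype.val, fun y => if h : y ∈ Mset (m + 2) then ⟨y, h⟩ else origin (m + 2),
    isOpen_univ, Set.mem_univ _, ?_, rfl, contMDiff_subtype_val.contMDiffOn, ?_, ?_, ?_⟩
  · rw [Set.image_univ, Subtype.range_coe]
    exact (Mset (m + 2)).isOpen
  · rw [Set.image_univ, Subtype.range_coe]
    intro y hy
    apply ContMDiffAt.contMDiffWithinAt
    apply contMDiff_to_opens
    have h1 : (fun z : E (m + 2) => (((if h : z ∈ Mset (m + 2) then ⟨z, h⟩ else origin (m + 2)) :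
        Mset (m + 2)) : E (m + 2))) =ᶠ[𝓝 y] id := by
      filter_upwards [(Mset (m + 2)).isOpen.mem_nhds hy] with z hz
      have hz' : z ∈ Mset (m + 2) := hz
      simp [hz']
    exact contMDiffAt_id.congr_of_eventuallyEq h1
  · intro x _
    simp
  · intro γ x _ _
    rw [derivRep_eq]
    rfl

lemma ax_one_not_mem {m : ℕ} {t : ℝ} (ht : t ≠ 0) (ht' : ∃ k : ℤ, t = k) :
    (ax t : E (m + 2)) ∉ Mset (m + 2) := by
  intro h
  rw [mem_Mset] at h
  obtain ⟨k, hk⟩ := ht'
  have h1 := h (by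
    intro i
    rw [ax_apply]
    split_ifs
    · exact ⟨k, hk⟩
    · exact ⟨0, by simp⟩)
  have h2 := congrArg (fun v : E (m + 2) => v 0) h1
  simp [ax_apply] at h2
  exact ht h2

lemma no_global {m : ℕ} (Γ : Subgroup SL(m + 2, ℤ)) (hΓ : Γ.index ≠ 0) :
    ¬ HasInvariantLinearNhd (n := m + 2) Γ (origin (m + 2)) := by
  classical
  rintro ⟨U, φ, ψ, hU, hpU, hinv, hφ, hψ, hψU, hψφ, hφψ, heq⟩
  have hstab : ∀ γ : Γ, γ ∈ MulAction.stabilizer Γ (origin (m + 2)) := fun γ => smul_origin Γ γ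
  let F : E (m + 2) → E (m + 2) := fun x => if h : x ∈ Mset (m + 2) then φ ⟨x, h⟩ else 0
  let G : E (m + 2) → E (m + 2) := fun y => (ψ y : E (m + 2))
  have hFval : ∀ x : Mset (m + 2), F x = φ x := by
    intro x
    simp [F]
  refine core Γ (exists_pow_mem Γ hΓ) (Subtype.val '' U) ((Mset (m + 2)).isOpen.isOpenMap_subtype_val U hU)
    F G ?_ ?_ ?_ ?_ ?_ ?_ ?_ ?_ ?_ ?_
  · rintro _ ⟨x, hx, rfl⟩
    have h1 : ContinuousAt φ x := hφ.continuousAt (hU.mem_nhds hx)
    have h2 : ContinuousAt (F ∘ Subtype.val) x := by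
      have : F ∘ Subtype.val = φ := funext hFval
      rw [this]
      exact h1
    have h3 : ContinuousAt F (x : E (m + 2)) :=
      ((Mset (m + 2)).isOpen.isOpenEmbedding_subtypeVal.continuousAt_iff).1 h2
    exact h3.continuousWithinAt
  · exact continuous_subtype_val.comp hψ
  · intro y
    exact ⟨ψ y, hψU y, rfl⟩
  · intro y
    change F (ψ y : E (m + 2)) = y
    rw [hFval, hφψ]
  · rintro _ ⟨x, hx, rfl⟩
    rw [hFval]
    change ((ψ (φ x) : Mset (m + 2)) : E (m + 2)) = x
    rw [hψφ x hx]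
  · rintro A hA _ ⟨x, hx, rfl⟩
    exact ⟨(⟨A, hA⟩ : Γ) • x, hinv _ (hstab _) x hx, rfl⟩
  · rintro A hA _ ⟨x, hx, rfl⟩
    have h1 := heq ⟨⟨A, hA⟩, hstab _⟩ x hx
    rw [derivRep_eq] at h1
    rw [hFval]
    change F (((⟨A, hA⟩ : Γ) • x : Mset (m + 2)) : E (m + 2)) = _
    rw [hFval]
    exact h1
  · exact ⟨origin (m + 2), hpU, rfl⟩
  · rintro ⟨x, hx, hx'⟩
    exact ax_one_not_mem (m := m) (t := 1) one_ne_zero ⟨1, by simp⟩ (hx' ▸ x.2)
  · rintro ⟨x, hx, hx'⟩
    exact ax_one_not_mem (m := m) (t := -1) (by norm_num) ⟨-1, by simp⟩ (hx' ▸ x.2)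

lemma connected_Mset {m : ℕ} : ConnectedSpace (Mset (m + 2)) := by
  have hcount : ({x : E (m + 2) | (∀ i, ∃ k : ℤ, x i = k)} \ {0}).Countable := by
    apply Set.Countable.mono Set.sdiff_subset
    have : {x : E (m + 2) | (∀ i, ∃ k : ℤ, x i = k)} ⊆
        Set.range (fun v : Fin (m + 2) → ℤ => (WithLp.toLp 2 (fun i => (v i : ℝ)) : E (m + 2))) := by
      intro x hx
      choose k hk using hx
      refine ⟨k, ?_⟩
      ext i
      simp [hk]
    exact (Set.countable_range _).mono this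
  have hrank : 1 < Module.rank ℝ (E (m + 2)) := by
    have : (Module.finrank ℝ (E (m + 2))) = m + 2 := by simp
    rw [← Module.finrank_eq_rank, this]
    exact_mod_cast (by omega : 1 < m + 2)
  have h := Set.Countable.isConnected_compl_of_one_lt_rank hrank hcount
  have heq : ({x : E (m + 2) | (∀ i, ∃ k : ℤ, x i = k)} \ {0})ᶜ = (Mset (m + 2) : Set (E (m + 2))) := by
    ext x
    simp only [Set.mem_compl_iff, Set.mem_sdiff, Set.mem_singleton_iff, not_and, not_not,
      SetLike.mem_coe, mem_Mset]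
    rfl
  rw [heq] at h
  exact Subtype.connectedSpace h

/-- **Main result.** -/
theorem result : ∀ n : ℕ, 2 ≤ n → ∀ Γ : Subgroup SL(n, ℤ), Γ.FiniteIndex →
    ∃ (M : Type) (_ : TopologicalSpace M) (_ : ChartedSpace (EuclideanSpace ℝ (Fin n)) M)
      (_ : MulAction Γ M) (p : M),
      IsManifold (𝓡 n) ∞ M ∧ T2Space M ∧ SecondCountableTopology M ∧ ConnectedSpace M ∧
      (∀ γ : Γ, ContMDiff (𝓡 n) (𝓡 n) ∞ (fun x : M => γ • x)) ∧
      IsIsolatedPeriodic Γ p ∧ (∀ x : M, (MulAction.orbit Γ x).Finite → x = p) ∧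
      (∀ γ : Γ, γ • p = p) ∧
      (∀ (γ : MulAction.stabilizer Γ p) (v : EuclideanSpace ℝ (Fin n)) (i : Fin n),
        derivRep Γ p γ v i =
          ∑ j, ((((γ : Γ) : SL(n, ℤ)) : Matrix (Fin n) (Fin n) ℤ) i j : ℝ) * v j) ∧
      HasUnboundedDeriv (n := n) Γ p ∧
      IsLinearizableNear (n := n) Γ p ∧
      ¬ HasInvariantLinearNhd (n := n) Γ p := by
  intro n hn Γ hΓ
  obtain ⟨m, rfl⟩ := Nat.exists_eq_add_of_le' hn
  have hidx : Γ.index ≠ 0 := hΓ.index_ne_zero
  refine ⟨Mset (m + 2), inferInstance, inferInstance, inferInstance, origin (m + 2), inferInstance,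
    inferInstance, inferInstance, connected_Mset, ?_, ?_, ?_, ?_, ?_, ?_, ?_, ?_⟩
  · intro γ
    exact contMDiff_smul (γ : SL(m + 2, ℤ))
  · refine ⟨?_, Set.univ, Filter.univ_mem, ?_⟩
    · apply (Set.finite_singleton (origin (m + 2))).subset
      rintro _ ⟨γ, rfl⟩
      exact smul_origin Γ γ
    · intro x _ hx
      apply infinite_orbit Γ hidx
      apply (Set.finite_singleton x).subset
      rintro _ ⟨γ, rfl⟩
      exact hx γ (smul_origin Γ γ)
  · exact fun x hx => infinite_orbit Γ hidx x hx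
  · exact smul_origin Γ
  · intro γ v i
    rw [derivRep_eq, L_apply]
  · exact unbounded_deriv Γ hidx
  · exact linearizable Γ
  · exact no_global Γ hidx

end Pool.Agent.Results.MP_2392aa_gt.NoGlobalLinearNhd
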