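import Mathlib

open scoped Manifold ContDiff Topology MatrixGroups

namespace Pool.Agent.Results.MP_2392aa_gt.TorusCompact

/-- The euclidean space of dimension `n`. -/
abbrev E (n : ℕ) := EuclideanSpace ℝ (Fin n)

/-- The standard linear action of `A ∈ SL(n,ℤ)` on `ℝ^n`. -/
noncomputable def L {n : ℕ} (A : SL(n, ℤ)) : E n →L[ℝ] E n :=
  Matrix.toEuclideanCLM (n := Fin n) (𝕜 := ℝ)
    ((A : Matrix (Fin n) (Fin n) ℤ).map (Int.cast : ℤ → ℝ))

lemma L_apply {n : ℕ} (A : SL(n, ℤ)) (x : E n) (i : Fin n) :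
    L A x i = ∑ j, ((A : Matrix (Fin n) (Fin n) ℤ) i j : ℝ) * x j := by
  simp [L, Matrix.ofLp_toEuclideanCLM, Matrix.mulVec, dotProduct]

lemma L_one {n : ℕ} : L (1 : SL(n, ℤ)) = 1 := by
  ext x i
  rw [L_apply]
  simp [Matrix.one_apply]

lemma L_mul {n : ℕ} (A B : SL(n, ℤ)) : L (A * B) = L A * L B := by
  simp only [L]
  rw [← map_mul]
  congr 1
  ext i j
  simp [Matrix.mul_apply]

/-- The elementary matrix `I + c e_{ij}` in `SL(n,ℤ)`. -/
def T {n : ℕ} (i j : Fin n) (h : i ≠ j) (c : ℤ) : SL(n, ℤ) :=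
  ⟨Matrix.transvection i j c, Matrix.det_transvection_of_ne i j h c⟩

lemma T_apply {n : ℕ} (i j : Fin n) (h : i ≠ j) (c : ℤ) (x : E n) (k : Fin n) :
    L (T i j h c) x k = x k + if k = i then (c : ℝ) * x j else 0 := by
  rw [L_apply]
  simp only [T, Matrix.transvection, Matrix.add_apply, Matrix.one_apply, Matrix.single_apply]
  simp only [Int.cast_add, Int.cast_ite, Int.cast_one, Int.cast_zero, add_mul, ite_mul, one_mul,
    zero_mul, Finset.sum_add_distrib, Finset.sum_ite_eq, Finset.mem_univ, if_true]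
  congr 1
  by_cases hk : k = i
  · subst hk
    simp
  · have : ∀ j', ¬ (i = k ∧ j = j') := fun j' h' => hk h'.1.symm
    simp [hk, this]

/-- powers of elementary matrices -/
lemma T_pow_apply {n : ℕ} (i j : Fin n) (h : i ≠ j) (c : ℤ) (k : ℕ) (x : E n) (i' : Fin n) :
    L (T i j h c ^ k) x i' = x i' + if i' = i then (k : ℝ) * c * x j else 0 := by
  induction k with
  | zero => simp [L_one]
  | succ k ih =>
    rw [pow_succ', L_mul]
    change L (T i j h c) (L (T i j h c ^ k) x) i' = _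
    have hj : L (T i j h c ^ k) x j = x j := by
      have : ∀ k : ℕ, L (T i j h c ^ k) x j = x j := by
        intro k
        induction k with
        | zero => simp [L_one]
        | succ k ih =>
          rw [pow_succ', L_mul]
          change L (T i j h c) (L (T i j h c ^ k) x) j = _
          rw [T_apply, ih]
          simp [h.symm]
      exact this k
    rw [T_apply, ih, hj]
    split_ifs with h1
    · push_cast
      ring
    · ring

/-! ### Definitions used in the statement -/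

section Defs

variable {n : ℕ} (G : Type) [Group G] {M : Type} [TopologicalSpace M]
  [ChartedSpace (EuclideanSpace ℝ (Fin n)) M] [MulAction G M]

/-- The derivative representation at `p`: the derivative at `p` of an element of the stabilizer
of `p`, an endomorphism of the tangent space at `p`, which is `ℝ^n`. -/
noncomputable def derivRep (p : M) (γ : MulAction.stabilizer G p) :
    EuclideanSpace ℝ (Fin n) →L[ℝ] EuclideanSpace ℝ (Fin n) :=
  mfderiv (𝓡 n) (𝓡 n) (fun x : M => (γ : G) • x) p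

/-- `p` is periodic (its orbit is finite) and isolated (it has a neighbourhood containing no
other point fixed by the stabilizer of `p`). -/
def IsIsolatedPeriodic (p : M) : Prop :=
  (MulAction.orbit G p).Finite ∧
    ∃ V ∈ 𝓝 p, ∀ x ∈ V, (∀ γ ∈ MulAction.stabilizer G p, γ • x = x) → x = p

/-- The derivative at `p` is unbounded. -/
def HasUnboundedDeriv (p : M) : Prop :=
  ¬ Bornology.IsBounded (Set.range (derivRep (n := n) G p))

/-- The germ of the action at `p` is smoothly conjugate to the linear action: there is a smooth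
chart `φ` from an open neighbourhood `V` of `p` onto an open set, with smooth inverse `ψ`, such
that every element `γ` of the stabilizer of `p` satisfies `φ ∘ γ = ρ(γ) ∘ φ` near `p`. -/
def GermLinearizable (p : M) : Prop :=
  ∃ (V : Set M) (φ : M → EuclideanSpace ℝ (Fin n)) (ψ : EuclideanSpace ℝ (Fin n) → M),
    IsOpen V ∧ p ∈ V ∧ IsOpen (φ '' V) ∧ φ p = 0 ∧
    ContMDiffOn (𝓡 n) (𝓡 n) ∞ φ V ∧ ContMDiffOn (𝓡 n) (𝓡 n) ∞ ψ (φ '' V) ∧
    (∀ x ∈ V, ψ (φ x) = x) ∧
    ∀ γ : MulAction.stabilizer G p, ∀ᶠ x in 𝓝 p, φ ((γ : G) • x) = derivRep G p γ (φ x)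

/-- The displayed condition of the problem read literally, with one neighbourhood for the whole
group: there is a smooth chart `φ` from an open neighbourhood `V` of `p` onto an open set, with
smooth inverse `ψ`, such that `φ (γ x) = ρ(γ) (φ x)` for all `γ` in the stabilizer of `p` and all
`x ∈ V` with `γ x ∈ V`. -/
def LinearizableOnOneNhd (p : M) : Prop :=
  ∃ (V : Set M) (φ : M → EuclideanSpace ℝ (Fin n)) (ψ : EuclideanSpace ℝ (Fin n) → M),
    IsOpen V ∧ p ∈ V ∧ IsOpen (φ '' V) ∧ φ p = 0 ∧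
    ContMDiffOn (𝓡 n) (𝓡 n) ∞ φ V ∧ ContMDiffOn (𝓡 n) (𝓡 n) ∞ ψ (φ '' V) ∧
    (∀ x ∈ V, ψ (φ x) = x) ∧
    ∀ γ : MulAction.stabilizer G p, ∀ x ∈ V, (γ : G) • x ∈ V →
      φ ((γ : G) • x) = derivRep G p γ (φ x)

/-- There is an open neighbourhood `U` of `p`, invariant under the stabilizer of `p`, on which the
action of the stabilizer is conjugate, by a bijection `φ : U → ℝ^n` with inverse `ψ` (no
continuity or smoothness asked), to the linear action on all of `ℝ^n` given by the derivative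
representation. -/
def HasInvariantLinearNhd (p : M) : Prop :=
  ∃ (U : Set M) (φ : M → EuclideanSpace ℝ (Fin n)) (ψ : EuclideanSpace ℝ (Fin n) → M),
    IsOpen U ∧ p ∈ U ∧ (∀ γ ∈ MulAction.stabilizer G p, ∀ x ∈ U, γ • x ∈ U) ∧
    (∀ y, ψ y ∈ U) ∧ (∀ x ∈ U, ψ (φ x) = x) ∧ (∀ y, φ (ψ y) = y) ∧
    ∀ γ : MulAction.stabilizer G p, ∀ x ∈ U, φ ((γ : G) • x) = derivRep G p γ (φ x)

end Defs

/-! ### The torus -/

/-- The torus `ℝ^n/ℤ^n`, as a product of circles `ℝ/ℤ`. -/
def Tor (n : ℕ) : Type := Fin n → AddCircle (1 : ℝ)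

instance (n : ℕ) : TopologicalSpace (Tor n) :=
  inferInstanceAs (TopologicalSpace (Fin n → AddCircle (1 : ℝ)))
instance (n : ℕ) : CompactSpace (Tor n) :=
  haveI : Fact ((0 : ℝ) < 1) := ⟨zero_lt_one⟩
  inferInstanceAs (CompactSpace (Fin n → AddCircle (1 : ℝ)))
instance (n : ℕ) : T2Space (Tor n) :=
  inferInstanceAs (T2Space (Fin n → AddCircle (1 : ℝ)))

/-- The projection `ℝ^n → ℝ^n/ℤ^n`. -/
def proj {n : ℕ} (x : E n) : Tor n := fun i => ((x i : ℝ) : AddCircle (1 : ℝ))

lemma proj_eq_iff {n : ℕ} (x y : E n) : proj x = proj y ↔ ∀ i, ∃ k : ℤ, x i - y i = k := by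
  refine (funext_iff (f := proj x) (g := proj y)).trans (forall_congr' fun i => ?_)
  change (((x i : ℝ) : AddCircle (1 : ℝ)) = ((y i : ℝ) : AddCircle (1 : ℝ))) ↔ _
  rw [eq_comm, QuotientAddGroup.eq, AddSubgroup.mem_zmultiples_iff]
  constructor
  · rintro ⟨k, hk⟩
    exact ⟨k, by simp at hk; linarith⟩
  · rintro ⟨k, hk⟩
    exact ⟨k, by simp; linarith⟩

lemma continuous_proj {n : ℕ} : Continuous (proj : E n → Tor n) := by
  refine continuous_pi fun i => ?_
  exact (AddCircle.continuous_mk' (1 : ℝ)).comp (EuclideanSpace.proj (𝕜 := ℝ) i).continuous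

lemma surjective_proj {n : ℕ} : Function.Surjective (proj : E n → Tor n) := by
  intro z
  choose y hy using fun i => QuotientAddGroup.mk_surjective (z i)
  refine ⟨WithLp.toLp 2 y, ?_⟩
  funext i
  exact hy i

lemma isLocalHomeomorph_proj {n : ℕ} : IsLocalHomeomorph (proj : E n → Tor n) := by
  intro x
  choose e he using fun i : Fin n => AddCircle.isLocalHomeomorph_coe (1 : ℝ) (x i)
  let h : E n ≃ₜ (Fin n → ℝ) := (PiLp.homeomorph 2 (fun _ : Fin n => ℝ))
  refine ⟨h.toOpenPartialHomeomorph.trans (OpenPartialHomeomorph.pi e), ?_, ?_⟩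
  · exact ⟨Set.mem_univ _, fun i _ => (he i).1⟩
  · funext y i
    change ((y i : ℝ) : AddCircle (1 : ℝ)) = e i (y i)
    rw [← (he i).2]

/-- A section of the projection. -/
noncomputable def sec {n : ℕ} : Tor n → E n := Function.surjInv surjective_proj

lemma proj_sec {n : ℕ} : Function.RightInverse (sec : Tor n → E n) proj :=
  Function.rightInverse_surjInv surjective_proj

noncomputable instance (n : ℕ) : ChartedSpace (EuclideanSpace ℝ (Fin n)) (Tor n) :=
  isLocalHomeomorph_proj.chartedSpaceOfRightInverse proj_sec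

/-- The action of `SL(n,ℤ)` on the torus by automorphisms. -/
noncomputable instance instSMul (n : ℕ) : SMul SL(n, ℤ) (Tor n) where
  smul A z := fun i => ∑ j, ((A : Matrix (Fin n) (Fin n) ℤ) i j) • (z j : AddCircle (1 : ℝ))

lemma smul_proj {n : ℕ} (A : SL(n, ℤ)) (x : E n) : A • (proj x : Tor n) = proj (L A x) := by
  funext i
  change ∑ j, ((A : Matrix (Fin n) (Fin n) ℤ) i j) • ((x j : ℝ) : AddCircle (1 : ℝ)) =
    ((L A x i : ℝ) : AddCircle (1 : ℝ))
  rw [L_apply]
  have h : ∀ r : ℝ, ((r : ℝ) : AddCircle (1 : ℝ)) =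
      QuotientAddGroup.mk' (AddSubgroup.zmultiples (1 : ℝ)) r := fun _ => rfl
  simp only [h]
  rw [map_sum]
  refine Finset.sum_congr rfl fun j _ => ?_
  rw [← map_zsmul, zsmul_eq_mul]

noncomputable instance instAct (n : ℕ) : MulAction SL(n, ℤ) (Tor n) where
  one_smul z := by
    obtain ⟨x, rfl⟩ := surjective_proj z
    rw [smul_proj, L_one]
    rfl
  mul_smul A B z := by
    obtain ⟨x, rfl⟩ := surjective_proj z
    rw [smul_proj, smul_proj, smul_proj, L_mul]
    rfl


/-- Two continuous lifts of the same map to the torus differ locally by a constant. -/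
lemma lift_unique {n : ℕ} {u F : E n → E n} {y0 : E n} (hu : ContinuousAt u y0)
    (hF : ContinuousAt F y0) (h : ∀ᶠ y in 𝓝 y0, proj (u y) = proj (F y)) :
    ∀ᶠ y in 𝓝 y0, u y = F y + (u y0 - F y0) := by
  have h0 := h.self_of_nhds
  have hD : ContinuousAt (fun y => u y - F y) y0 := hu.sub hF
  have h1 : ∀ᶠ y in 𝓝 y0, dist (u y - F y) (u y0 - F y0) < 1 :=
    hD (Metric.ball_mem_nhds _ one_pos)
  filter_upwards [h, h1] with y hy h1y
  rw [proj_eq_iff] at hy h0
  have : u y - F y = u y0 - F y0 := by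
    ext i
    obtain ⟨k, hk⟩ := hy i
    obtain ⟨l, hl⟩ := h0 i
    have h2 : ‖((u y - F y) - (u y0 - F y0)) i‖ ≤ ‖(u y - F y) - (u y0 - F y0)‖ :=
      PiLp.norm_apply_le _ i
    rw [dist_eq_norm] at h1y
    have h3 : |((k - l : ℤ) : ℝ)| < 1 := by
      have : ((k - l : ℤ) : ℝ) = ((u y - F y) - (u y0 - F y0)) i := by
        push_cast
        rw [← hk, ← hl]
        rfl
      rw [this]
      exact lt_of_le_of_lt h2 h1y
    have h4 : k - l = 0 := by
      rw [← Int.cast_abs] at h3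
      exact Int.abs_lt_one_iff.1 (by exact_mod_cast h3)
    have h5 : k = l := by omega
    change u y i - F y i = u y0 i - F y0 i
    rw [hk, hl, h5]
  rw [← this]
  abel

lemma chartAt_eq {n : ℕ} (q : Tor n) : chartAt (EuclideanSpace ℝ (Fin n)) q =
    isLocalHomeomorph_proj.localInverseAt (sec q) := by
  change (isLocalHomeomorph_proj.localInverseAt (sec q)).trans
    (chartAt (EuclideanSpace ℝ (Fin n)) (sec q)) = _
  rw [chartAt_self_eq, OpenPartialHomeomorph.trans_refl]

lemma chartAt_symm {n : ℕ} (q : Tor n) (y : E n) :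
    (chartAt (EuclideanSpace ℝ (Fin n)) q).symm y = proj y := by
  rw [chartAt_eq, isLocalHomeomorph_proj.localInverseAt_symm]

lemma proj_chartAt {n : ℕ} (q : Tor n) {z : Tor n}
    (hz : z ∈ (chartAt (EuclideanSpace ℝ (Fin n)) q).source) :
    proj (chartAt (EuclideanSpace ℝ (Fin n)) q z) = z := by
  rw [← chartAt_symm q, OpenPartialHomeomorph.left_inv _ hz]

lemma mem_atlas_iff {n : ℕ} (e : OpenPartialHomeomorph (Tor n) (E n))
    (he : e ∈ atlas (EuclideanSpace ℝ (Fin n)) (Tor n)) :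
    ∃ q : Tor n, e = chartAt (EuclideanSpace ℝ (Fin n)) q := by
  obtain ⟨q, hq⟩ := he
  exact ⟨q, hq.symm⟩


lemma continuous_smul' {n : ℕ} (A : SL(n, ℤ)) : Continuous (fun z : Tor n => A • z) := by
  refine continuous_pi fun i => ?_
  refine continuous_finsetSum _ fun j _ => ?_
  exact (continuous_zsmul _).comp (continuous_apply j)

/-- The base point. -/
noncomputable def origin (n : ℕ) : Tor n := proj 0

lemma smul_origin {n : ℕ} (A : SL(n, ℤ)) : A • origin n = origin n := by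
  rw [origin, smul_proj, map_zero]

lemma pow_factorial_mem {m : ℕ} (Γ : Subgroup SL(m, ℤ)) (hΓ : Γ.index ≠ 0) (A : SL(m, ℤ)) :
    A ^ (Nat.factorial Γ.index) ∈ Γ := by
  apply Subgroup.pow_mem_of_index_ne_zero_of_dvd hΓ
  intro k hk hk'
  exact Nat.dvd_factorial hk hk'


theorem isManifold_tor (n : ℕ) : IsManifold (𝓡 n) ∞ (Tor n) := by
  apply isManifold_of_contDiffOn
  intro e e' he he'
  obtain ⟨q, rfl⟩ := mem_atlas_iff e he
  obtain ⟨q', rfl⟩ := mem_atlas_iff e' he'
  set t := (chartAt (EuclideanSpace ℝ (Fin n)) q).symm.trans (chartAt (EuclideanSpace ℝ (Fin n)) q') with ht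
  have hset : (𝓡 n).symm ⁻¹' t.source ∩ Set.range (𝓡 n) = t.source := by
    simp only [mfld_simps]
  rw [hset]
  have hfun : ((𝓡 n) ∘ t ∘ (𝓡 n).symm) = t := by
    simp only [mfld_simps]
  rw [hfun]
  intro y0 hy0
  apply ContDiffAt.contDiffWithinAt
  have hopen : t.source ∈ 𝓝 y0 := t.open_source.mem_nhds hy0
  have hproj : ∀ᶠ y in 𝓝 y0, proj (t y) = proj (id y) := by
    filter_upwards [hopen] with y hy
    have h1 : t y = chartAt (EuclideanSpace ℝ (Fin n)) q' ((chartAt (EuclideanSpace ℝ (Fin n)) q).symm y) := rfl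
    rw [ht, OpenPartialHomeomorph.trans_source] at hy
    rw [h1, proj_chartAt q' hy.2, chartAt_symm]
    rfl
  have h2 := lift_unique (t.continuousAt hy0) continuousAt_id hproj
  have h3 : ContDiffAt ℝ ∞ (fun y : E n => id y + (t y0 - id y0)) y0 :=
    contDiffAt_id.add contDiffAt_const
  exact h3.congr_of_eventuallyEq h2

instance (n : ℕ) : IsManifold (𝓡 n) ∞ (Tor n) := isManifold_tor n

lemma smul_local {n : ℕ} (A : SL(n, ℤ)) (q : Tor n) :
    ∀ᶠ y in 𝓝 (extChartAt (𝓡 n) q q), writtenInExtChartAt (𝓡 n) (𝓡 n) q (fun z : Tor n => A • z) y =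
      L A y + (extChartAt (𝓡 n) (A • q) (A • q) - L A (extChartAt (𝓡 n) q q)) := by
  have hy0 : proj (chartAt (E n) q q) = q := proj_chartAt q (mem_chart_source _ q)
  have hAy0 : proj (L A (chartAt (E n) q q)) = A • q := by rw [← smul_proj, hy0]
  have hu : ∀ y, writtenInExtChartAt (𝓡 n) (𝓡 n) q (fun z : Tor n => A • z) y =
      chartAt (E n) (A • q) (proj (L A y)) := by
    intro y
    rw [← smul_proj, ← chartAt_symm q y]
    rfl
  have hc : Continuous (fun y : E n => proj (L A y)) := continuous_proj.comp (L A).continuous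
  have h1 : ContinuousAt (fun y => chartAt (E n) (A • q) (proj (L A y))) (chartAt (E n) q q) := by
    refine ContinuousAt.comp (g := chartAt (E n) (A • q)) (f := fun y : E n => proj (L A y)) ?_
      hc.continuousAt
    rw [hAy0]
    exact (chartAt (E n) (A • q)).continuousAt (mem_chart_source _ _)
  have h2 : ∀ᶠ y in 𝓝 (chartAt (E n) q q),
      proj (chartAt (E n) (A • q) (proj (L A y))) = proj (L A y) := by
    have hmem : (chartAt (E n) (A • q)).source ∈ 𝓝 (proj (L A (chartAt (E n) q q))) := by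
      rw [hAy0]
      exact (chartAt (E n) (A • q)).open_source.mem_nhds (mem_chart_source _ _)
    have h4 : ∀ᶠ y in 𝓝 (chartAt (E n) q q), proj (L A y) ∈ (chartAt (E n) (A • q)).source :=
      hc.continuousAt.eventually_mem hmem
    filter_upwards [h4] with y hy
    exact proj_chartAt _ hy
  have h3 := lift_unique h1 (L A).continuous.continuousAt h2
  have e1 : extChartAt (𝓡 n) q q = chartAt (E n) q q := rfl
  have e2 : extChartAt (𝓡 n) (A • q) (A • q) = chartAt (E n) (A • q) (A • q) := rfl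
  rw [e1, e2]
  filter_upwards [h3] with y hy
  rw [hu y, hy, hAy0]

lemma hasMFDerivAt_smul {n : ℕ} (A : SL(n, ℤ)) (q : Tor n) :
    HasMFDerivAt (𝓡 n) (𝓡 n) (fun z : Tor n => A • z) q (L A) := by
  refine ⟨(continuous_smul' A).continuousAt, ?_⟩
  have h2 : HasFDerivAt (fun y : E n => L A y +
      (extChartAt (𝓡 n) (A • q) (A • q) - L A (extChartAt (𝓡 n) q q))) (L A)
      (extChartAt (𝓡 n) q q) := (L A).hasFDerivAt.add_const _
  exact (h2.congr_of_eventuallyEq (smul_local A q)).hasFDerivWithinAt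

lemma contMDiff_smul_of {n : ℕ} (hM : IsManifold (𝓡 n) ∞ (Tor n)) (A : SL(n, ℤ))
    (hloc : ∀ q : Tor n, ∀ᶠ y in 𝓝 (extChartAt (𝓡 n) q q),
      writtenInExtChartAt (𝓡 n) (𝓡 n) q (fun z : Tor n => A • z) y =
      L A y + (extChartAt (𝓡 n) (A • q) (A • q) - L A (extChartAt (𝓡 n) q q))) :
    ContMDiff (𝓡 n) (𝓡 n) ∞ (fun z : Tor n => A • z) := by
  intro q
  rw [contMDiffAt_iff]
  refine ⟨(continuous_smul' A).continuousAt, ?_⟩
  have h := hloc q
  have hf : ContDiff ℝ ∞ (fun y : E n => L A y +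
      (extChartAt (𝓡 n) (A • q) (A • q) - L A (extChartAt (𝓡 n) q q))) :=
    (L A).contDiff.add contDiff_const
  refine (hf.contDiffWithinAt).congr_of_eventuallyEq ?_ ?_
  · exact h.filter_mono nhdsWithin_le_nhds
  · exact h.self_of_nhds

lemma contMDiff_smul {n : ℕ} (A : SL(n, ℤ)) :
    ContMDiff (𝓡 n) (𝓡 n) ∞ (fun z : Tor n => A • z) :=
  contMDiff_smul_of (isManifold_tor n) A (smul_local A)

lemma derivRep_eq {n : ℕ} (Γ : Subgroup SL(n, ℤ)) (q : Tor n) (γ : MulAction.stabilizer Γ q) :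
    derivRep (n := n) Γ q γ = L ((γ : Γ) : SL(n, ℤ)) :=
  (hasMFDerivAt_smul ((γ : Γ) : SL(n, ℤ)) q).mfderiv

lemma isolated {m : ℕ} (Γ : Subgroup SL(m + 2, ℤ)) (hΓ : Γ.index ≠ 0) :
    IsIsolatedPeriodic Γ (origin (m + 2)) := by
  refine ⟨(Set.finite_singleton (origin (m + 2))).subset ?_, ?_⟩
  · rintro _ ⟨γ, rfl⟩
    exact smul_origin (γ : SL(m + 2, ℤ))
  obtain ⟨q, hq⟩ : ∃ q : ℕ, q = Nat.factorial Γ.index := ⟨_, rfl⟩
  have hq0 : 0 < q := by rw [hq]; exact Nat.factorial_pos _
  have hqr : (0 : ℝ) < q := by exact_mod_cast hq0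
  refine ⟨proj '' Metric.ball (0 : E (m + 2)) (1 / q), ?_, ?_⟩
  · apply IsOpen.mem_nhds
    · exact isLocalHomeomorph_proj.isOpenMap _ Metric.isOpen_ball
    · exact ⟨0, Metric.mem_ball_self (by positivity), rfl⟩
  · rintro _ ⟨y, hy, rfl⟩ hfix
    have hy0 : y = 0 := by
      ext j
      obtain ⟨i, hij⟩ := exists_ne j
      have hmem : T i j hij 1 ^ q ∈ Γ := by rw [hq]; exact pow_factorial_mem Γ hΓ _
      have hst : (⟨T i j hij 1 ^ q, hmem⟩ : Γ) ∈ MulAction.stabilizer Γ (origin (m + 2)) := by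
        rw [MulAction.mem_stabilizer_iff]
        exact smul_origin _
      have h1 : (T i j hij 1 ^ q) • (proj y : Tor (m + 2)) = proj y := hfix _ hst
      rw [smul_proj, proj_eq_iff] at h1
      obtain ⟨k, hk⟩ := h1 i
      rw [T_pow_apply, if_pos rfl] at hk
      have h2 : (q : ℝ) * y j = k := by
        push_cast at hk
        linarith
      have h3 : ‖y j‖ ≤ ‖y‖ := PiLp.norm_apply_le y j
      rw [mem_ball_zero_iff] at hy
      have h4 : ‖y j‖ < 1 / q := h3.trans_lt hy
      rw [lt_div_iff₀ hqr, Real.norm_eq_abs] at h4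
      have h5 : |(k : ℝ)| < 1 := by
        rw [← h2, abs_mul, abs_of_pos hqr]
        linarith
      have h6 : k = 0 := by
        rw [← Int.cast_abs] at h5
        exact Int.abs_lt_one_iff.1 (by exact_mod_cast h5)
      rw [h6, Int.cast_zero] at h2
      rcases mul_eq_zero.mp h2 with h | h
      · exact absurd h hqr.ne'
      · exact h
    rw [hy0]
    rfl

lemma no_injective {m : ℕ} (Γ : Subgroup SL(m + 2, ℤ)) (hΓ : Γ.index ≠ 0)
    (U : Set (Tor (m + 2))) (hU : U ∈ 𝓝 (origin (m + 2))) (φ : Tor (m + 2) → E (m + 2))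
    (hφ : Set.InjOn φ U)
    (heq : ∀ γ : Γ, ∀ x ∈ U, γ • x ∈ U → φ (γ • x) = L (γ : SL(m + 2, ℤ)) (φ x)) : False := by
  set q := Nat.factorial Γ.index with hq
  have hqpos : 0 < q := Nat.factorial_pos _
  have claim : ∀ (y : E (m + 2)) (N : ℕ), 0 < N → (∀ j, ∃ k : ℤ, (N : ℝ) * y j = k) →
      proj y ∈ U → φ (proj y) = 0 := by
    intro y N hN hy hyU
    ext j
    obtain ⟨i, hij⟩ : ∃ i : Fin (m + 2), i ≠ j := exists_ne j
    have hmem : (T i j hij 1 ^ q) ^ N ∈ Γ := Γ.pow_mem (pow_factorial_mem Γ hΓ _) N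
    have hfix : ((T i j hij 1 ^ q) ^ N) • (proj y : Tor (m + 2)) = proj y := by
      rw [← pow_mul, smul_proj, proj_eq_iff]
      intro i'
      rw [T_pow_apply]
      by_cases h : i' = i
      · obtain ⟨k, hk⟩ := hy j
        refine ⟨q * k, ?_⟩
        rw [if_pos h]
        push_cast
        rw [← hk]; ring
      · exact ⟨0, by rw [if_neg h]; simp⟩
    have hfix' : (⟨_, hmem⟩ : Γ) • (proj y : Tor (m + 2)) = proj y := hfix
    have h1 := heq ⟨_, hmem⟩ (proj y) hyU (by rw [hfix']; exact hyU)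
    have h2 : φ ((⟨_, hmem⟩ : Γ) • proj y) = φ (proj y) := congrArg φ hfix
    rw [h2] at h1
    have h3 : (φ (proj y)) i = L ((T i j hij 1 ^ q) ^ N) (φ (proj y)) i :=
      congrArg (fun z : E (m + 2) => z i) h1
    rw [← pow_mul, T_pow_apply, if_pos rfl] at h3
    have h4 : ((q * N : ℕ) : ℝ) * ((1 : ℤ) : ℝ) * (φ (proj y)) j = 0 := by linarith
    have h5 : ((q * N : ℕ) : ℝ) ≠ 0 := by
      have : 0 < q * N := Nat.mul_pos hqpos hN
      exact_mod_cast this.ne'
    rcases mul_eq_zero.1 h4 with h6 | h6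
    · rcases mul_eq_zero.1 h6 with h7 | h7
      · exact (h5 h7).elim
      · norm_num at h7
    · simpa using h6
  have h0 : φ (origin (m + 2)) = 0 := by
    refine claim 0 1 one_pos (fun j => ⟨0, by simp⟩) (mem_of_mem_nhds hU)
  have hcont : Continuous (fun t : ℝ => (proj (EuclideanSpace.single (0 : Fin (m + 2)) t) : Tor (m + 2))) := by
    refine continuous_proj.comp ?_
    have hfun : (fun t : ℝ => (EuclideanSpace.single (0 : Fin (m + 2)) t : E (m + 2))) =
        fun t : ℝ => t • (EuclideanSpace.single (0 : Fin (m + 2)) (1:ℝ) : E (m + 2)) := by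
      funext t
      ext i
      simp
    change Continuous (fun t : ℝ => (EuclideanSpace.single (0 : Fin (m + 2)) t : E (m + 2)))
    rw [hfun]
    exact continuous_id.smul continuous_const
  have hev : ∀ᶠ N : ℕ in Filter.atTop,
      proj (EuclideanSpace.single (0 : Fin (m + 2)) (1 / ((N : ℝ) + 1))) ∈ U := by
    have h1 : Filter.Tendsto (fun N : ℕ => (1 / ((N : ℝ) + 1))) Filter.atTop (𝓝 0) :=
      tendsto_one_div_add_atTop_nhds_zero_nat
    have h2 := (hcont.tendsto 0).comp h1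
    apply h2
    have : (proj (EuclideanSpace.single (0 : Fin (m + 2)) (0:ℝ)) : Tor (m + 2)) = origin (m + 2) := by
      rw [origin]; congr 1; ext i; simp
    rw [this]; exact hU
  obtain ⟨N, hNU, hN1⟩ := (hev.and (Filter.eventually_ge_atTop 1)).exists
  have h1 := claim _ (N + 1) (Nat.succ_pos N) (fun j => by
    by_cases hj : j = 0
    · refine ⟨1, ?_⟩
      subst hj
      have : ((N : ℝ) + 1) ≠ 0 := by positivity
      simp
      field_simp
    · exact ⟨0, by simp [hj]⟩) hNU
  have h2 := hφ hNU (mem_of_mem_nhds hU) (h1.trans h0.symm)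
  rw [origin, proj_eq_iff] at h2
  obtain ⟨k, hk⟩ := h2 0
  simp at hk
  have hN' : (1 : ℝ) ≤ N := by exact_mod_cast hN1
  have hk0 : (0 : ℝ) < k := by rw [← hk]; positivity
  have hk1 : (k : ℝ) < 1 := by
    rw [← hk]
    exact inv_lt_one_of_one_lt₀ (by linarith)
  have : (0 : ℤ) < k := by exact_mod_cast hk0
  have : k < (1 : ℤ) := by exact_mod_cast hk1
  omega

lemma unbounded_deriv {m : ℕ} (Γ : Subgroup SL(m + 2, ℤ)) (hΓ : Γ.index ≠ 0) :
    HasUnboundedDeriv (n := m + 2) Γ (origin (m + 2)) := by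
  intro hb
  have h01 : (0 : Fin (m + 2)) ≠ 1 := by simp
  obtain ⟨C, hC⟩ := hb.exists_norm_le
  have hqΓ := pow_factorial_mem Γ hΓ (T 0 1 h01 1)
  have hq : 0 < Nat.factorial Γ.index := Nat.factorial_pos _
  have hstab : ∀ γ : Γ, γ ∈ MulAction.stabilizer Γ (origin (m + 2)) :=
    fun γ => smul_origin (γ : SL(m + 2, ℤ))
  have key : ∀ k : ℕ, (k : ℝ) ≤ C * ‖(EuclideanSpace.single 1 1 : E (m + 2))‖ := by
    intro k
    have h1 := hC _ ⟨⟨⟨_, Γ.pow_mem hqΓ k⟩, hstab _⟩, rfl⟩
    rw [derivRep_eq] at h1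
    have h2 : ‖L ((T 0 1 h01 1 ^ (Nat.factorial Γ.index)) ^ k)
        (EuclideanSpace.single 1 1 : E (m + 2))‖ ≤
        C * ‖(EuclideanSpace.single 1 1 : E (m + 2))‖ :=
      (ContinuousLinearMap.le_opNorm _ _).trans (mul_le_mul_of_nonneg_right h1 (norm_nonneg _))
    have h3 := PiLp.norm_apply_le
      (L ((T 0 1 h01 1 ^ (Nat.factorial Γ.index)) ^ k) (EuclideanSpace.single 1 1 : E (m + 2))) 0
    rw [← pow_mul, T_pow_apply] at h3
    simp at h3
    have h4 : (k : ℝ) ≤ ((Nat.factorial Γ.index : ℕ) : ℝ) * k := by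
      have : (1 : ℝ) ≤ ((Nat.factorial Γ.index : ℕ) : ℝ) := by exact_mod_cast hq
      nlinarith [Nat.cast_nonneg (α := ℝ) k]
    rw [← pow_mul] at h2
    linarith
  obtain ⟨k, hk⟩ := exists_nat_gt (C * ‖(EuclideanSpace.single 1 1 : E (m + 2))‖)
  exact absurd (key k) (not_le.2 hk)

lemma germ_of {m : ℕ} (hM : IsManifold (𝓡 (m + 2)) ∞ (Tor (m + 2))) (Γ : Subgroup SL(m + 2, ℤ))
    (hder : ∀ γ : MulAction.stabilizer Γ (origin (m + 2)),
      derivRep (n := m + 2) Γ (origin (m + 2)) γ = L ((γ : Γ) : SL(m + 2, ℤ))) :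
    GermLinearizable (n := m + 2) Γ (origin (m + 2)) := by
  obtain ⟨e, he⟩ : ∃ e : OpenPartialHomeomorph (Tor (m + 2)) (E (m + 2)),
      e = chartAt (EuclideanSpace ℝ (Fin (m + 2))) (origin (m + 2)) := ⟨_, rfl⟩
  have hps : origin (m + 2) ∈ e.source := by rw [he]; exact mem_chart_source _ _
  have hproj : ∀ z ∈ e.source, proj (e z) = z := by
    intro z hz; rw [he] at hz ⊢; exact proj_chartAt _ hz
  obtain ⟨c, hc⟩ : ∃ c : E (m + 2), c = e (origin (m + 2)) := ⟨_, rfl⟩
  have hpc : proj c = origin (m + 2) := by rw [hc]; exact hproj _ hps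
  have himg : (fun x => e x - c) '' e.source = (fun y : E (m + 2) => y - c) '' e.target := by
    rw [← e.image_source_eq_target, Set.image_image]
  have hchart : ContMDiffOn (𝓡 (m + 2)) (𝓡 (m + 2)) ∞ e e.source := by
    rw [he]; exact contMDiffOn_chart
  have hsymm : ContMDiffOn (𝓡 (m + 2)) (𝓡 (m + 2)) ∞ e.symm e.target := by
    rw [he]; exact contMDiffOn_chart_symm
  refine ⟨e.source, fun x => e x - c, fun y => e.symm (y + c), e.open_source, hps, ?_, ?_, ?_,
    ?_, ?_, ?_⟩
  · rw [himg]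
    have := (Homeomorph.addRight (-c)).isOpenMap e.target e.open_target
    have h2 : (Homeomorph.addRight (-c) : E (m + 2) → E (m + 2)) = fun y => y - c := by
      funext y; simp [sub_eq_add_neg]
    rw [h2] at this
    exact this
  · simp [hc]
  · have h1 : ContMDiff (𝓡 (m + 2)) (𝓡 (m + 2)) ∞ (fun y : E (m + 2) => y - c) :=
      (contDiff_id.sub contDiff_const).contMDiff
    exact h1.comp_contMDiffOn hchart
  · have h1 : ContMDiff (𝓡 (m + 2)) (𝓡 (m + 2)) ∞ (fun y : E (m + 2) => y + c) :=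
      (contDiff_id.add contDiff_const).contMDiff
    refine hsymm.comp h1.contMDiffOn ?_
    rw [himg]
    rintro y ⟨z, hz, rfl⟩
    simpa using hz
  · intro x hx
    simp only [sub_add_cancel]
    exact e.left_inv hx
  · intro γ
    rw [hder γ]
    obtain ⟨A, hA⟩ : ∃ A : SL(m + 2, ℤ), A = ((γ : Γ) : SL(m + 2, ℤ)) := ⟨_, rfl⟩
    rw [← hA]
    have hsm : ∀ x : Tor (m + 2), (γ : Γ) • x = A • x := by
      intro x; rw [hA]; rfl
    have hcont : ContinuousAt (fun y : E (m + 2) => e (A • (proj y : Tor (m + 2)))) c := by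
      have h1 : ContinuousAt (fun y : E (m + 2) => A • (proj y : Tor (m + 2))) c :=
        ((continuous_smul' A).comp continuous_proj).continuousAt
      have h2 : ContinuousAt e (A • (proj c : Tor (m + 2))) := by
        rw [hpc, smul_origin]
        exact e.continuousAt hps
      exact ContinuousAt.comp (f := fun y : E (m + 2) => A • (proj y : Tor (m + 2))) (g := e) h2 h1
    have hsrc : ∀ᶠ y in 𝓝 c, A • (proj y : Tor (m + 2)) ∈ e.source := by
      have h1 : ContinuousAt (fun y : E (m + 2) => A • (proj y : Tor (m + 2))) c :=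
        ((continuous_smul' A).comp continuous_proj).continuousAt
      apply h1
      apply e.open_source.mem_nhds
      change A • (proj c : Tor (m + 2)) ∈ e.source
      rw [hpc, smul_origin]
      exact hps
    have hlift := lift_unique (u := fun y : E (m + 2) => e (A • (proj y : Tor (m + 2))))
      (F := fun y => L A y) (y0 := c) hcont (L A).continuous.continuousAt (by
        filter_upwards [hsrc] with y hy
        rw [hproj _ hy, smul_proj])
    have hec : Filter.Tendsto e (𝓝 (origin (m + 2))) (𝓝 c) := by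
      rw [hc]; exact e.continuousAt hps
    filter_upwards [hec.eventually hlift, e.open_source.mem_nhds hps] with x hx hxs
    rw [hsm x]
    rw [hproj x hxs, hpc, smul_origin, ← hc] at hx
    rw [hx, map_sub]
    abel

lemma germ {m : ℕ} (Γ : Subgroup SL(m + 2, ℤ)) :
    GermLinearizable (n := m + 2) Γ (origin (m + 2)) :=
  germ_of (isManifold_tor _) Γ (derivRep_eq Γ _)

lemma connected (n : ℕ) : ConnectedSpace (Tor n) := by
  have : ConnectedSpace (E n) := inferInstance
  exact surjective_proj.connectedSpace continuous_proj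

lemma secondCountable (n : ℕ) : SecondCountableTopology (Tor n) := by
  have hq : Topology.IsQuotientMap (proj : E n → Tor n) :=
    isLocalHomeomorph_proj.isOpenMap.isQuotientMap continuous_proj surjective_proj
  exact hq.secondCountableTopology isLocalHomeomorph_proj.isOpenMap

/-- **Main result.** -/
theorem result : ∀ n : ℕ, 2 ≤ n → ∀ Γ : Subgroup SL(n, ℤ), Γ.FiniteIndex →
    ∃ (M : Type) (_ : TopologicalSpace M) (_ : ChartedSpace (EuclideanSpace ℝ (Fin n)) M)
      (_ : MulAction Γ M) (p : M),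
      IsManifold (𝓡 n) ∞ M ∧ CompactSpace M ∧ T2Space M ∧ SecondCountableTopology M ∧
      ConnectedSpace M ∧
      (∀ γ : Γ, ContMDiff (𝓡 n) (𝓡 n) ∞ (fun x : M => γ • x)) ∧
      (∃ e : M ≃ₜ (Fin n → AddCircle (1 : ℝ)), e p = 0 ∧
        ∀ (γ : Γ) (x : M) (i : Fin n), e (γ • x) i =
          ∑ j, (((γ : SL(n, ℤ)) : Matrix (Fin n) (Fin n) ℤ) i j) • e x j) ∧
      IsIsolatedPeriodic Γ p ∧
      (∀ γ : Γ, γ • p = p) ∧
      (∀ (γ : MulAction.stabilizer Γ p) (v : EuclideanSpace ℝ (Fin n)) (i : Fin n),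
        derivRep Γ p γ v i =
          ∑ j, ((((γ : Γ) : SL(n, ℤ)) : Matrix (Fin n) (Fin n) ℤ) i j : ℝ) * v j) ∧
      HasUnboundedDeriv (n := n) Γ p ∧
      GermLinearizable (n := n) Γ p ∧
      ¬ LinearizableOnOneNhd (n := n) Γ p ∧
      ¬ HasInvariantLinearNhd (n := n) Γ p := by
  intro n hn Γ hΓ
  obtain ⟨m, rfl⟩ := Nat.exists_eq_add_of_le' hn
  have hidx : Γ.index ≠ 0 := hΓ.index_ne_zero
  refine ⟨Tor (m + 2), inferInstance, inferInstance, inferInstance, origin (m + 2), inferInstance,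
    inferInstance, inferInstance, secondCountable _, connected _, ?_, ?_, ?_, ?_, ?_, ?_, ?_, ?_, ?_⟩
  · intro γ
    exact contMDiff_smul (γ : SL(m + 2, ℤ))
  · refine ⟨Homeomorph.refl _, ?_, fun γ x i => rfl⟩
    change proj 0 = (fun _ => (0 : AddCircle (1 : ℝ)))
    funext i
    rfl
  · exact isolated Γ hidx
  · exact fun γ => smul_origin (γ : SL(m + 2, ℤ))
  · intro γ v i
    rw [derivRep_eq, L_apply]
  · exact unbounded_deriv Γ hidx
  · exact germ Γ
  · rintro ⟨V, φ, ψ, hV, hpV, -, -, -, -, hψφ, heq⟩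
    refine no_injective Γ hidx V (hV.mem_nhds hpV) φ ?_ ?_
    · intro x hx y hy hxy
      rw [← hψφ x hx, ← hψφ y hy, hxy]
    · intro γ x hx hx'
      have hst : γ ∈ MulAction.stabilizer Γ (origin (m + 2)) := smul_origin (γ : SL(m + 2, ℤ))
      have := heq ⟨γ, hst⟩ x hx hx'
      rw [derivRep_eq] at this
      exact this
  · rintro ⟨U, φ, ψ, hU, hpU, hinv, hψU, hψφ, hφψ, heq⟩
    refine no_injective Γ hidx U (hU.mem_nhds hpU) φ ?_ ?_
    · intro x hx y hy hxy
      rw [← hψφ x hx, ← hψφ y hy, hxy]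
    · intro γ x hx _
      have hst : γ ∈ MulAction.stabilizer Γ (origin (m + 2)) := smul_origin (γ : SL(m + 2, ℤ))
      have := heq ⟨γ, hst⟩ x hx
      rw [derivRep_eq] at this
      exact this

end Pool.Agent.Results.MP_2392aa_gt.TorusCompact
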