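import Mathlib

open scoped Manifold ContDiff Topology MatrixGroups

namespace Pool.Agent.Results.MP_2392aa_gt.TwoDimensional

/-- The euclidean space of dimension `n`. -/
abbrev E (n : ℕ) := EuclideanSpace ℝ (Fin n)

/-- The standard linear action of `A ∈ SL(n,ℤ)` on `ℝ^n`. -/
noncomputable def L {n : ℕ} (A : SL(n, ℤ)) : E n →L[ℝ] E n :=
  Matrix.toEuclideanCLM (n := Fin n) (𝕜 := ℝ)
    ((A : Matrix (Fin n) (Fin n) ℤ).map (Int.cast : ℤ → ℝ))

lemma L_apply {n : ℕ} (A : SL(n, ℤ)) (x : E n) (i : Fin n) :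
    L A x i = ∑ j, ((A : Matrix (Fin n) (Fin n) ℤ) i j : ℝ) * x j := by
  simp [L, Matrix.ofLp_toEuclideanCLM, Matrix.mulVec, dotProduct]

lemma L_one {n : ℕ} : L (1 : SL(n, ℤ)) = 1 := by
  ext x i
  rw [L_apply]
  simp [Matrix.one_apply]

lemma L_mul {n : ℕ} (A B : SL(n, ℤ)) : L (A * B) = L A * L B := by
  simp only [L]
  rw [← map_mul]
  congr 1
  ext i j
  simp [Matrix.mul_apply]

/-- The elementary matrix `I + c e_{ij}` in `SL(n,ℤ)`. -/
def T {n : ℕ} (i j : Fin n) (h : i ≠ j) (c : ℤ) : SL(n, ℤ) :=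
  ⟨Matrix.transvection i j c, Matrix.det_transvection_of_ne i j h c⟩

lemma T_apply {n : ℕ} (i j : Fin n) (h : i ≠ j) (c : ℤ) (x : E n) (k : Fin n) :
    L (T i j h c) x k = x k + if k = i then (c : ℝ) * x j else 0 := by
  rw [L_apply]
  simp only [T, Matrix.transvection, Matrix.add_apply, Matrix.one_apply, Matrix.single_apply]
  simp only [Int.cast_add, Int.cast_ite, Int.cast_one, Int.cast_zero, add_mul, ite_mul, one_mul,
    zero_mul, Finset.sum_add_distrib, Finset.sum_ite_eq, Finset.mem_univ, if_true]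
  congr 1
  by_cases hk : k = i
  · subst hk
    simp
  · have : ∀ j', ¬ (i = k ∧ j = j') := fun j' h' => hk h'.1.symm
    simp [hk, this]

/-- powers of elementary matrices -/
lemma T_pow_apply {n : ℕ} (i j : Fin n) (h : i ≠ j) (c : ℤ) (k : ℕ) (x : E n) (i' : Fin n) :
    L (T i j h c ^ k) x i' = x i' + if i' = i then (k : ℝ) * c * x j else 0 := by
  induction k with
  | zero => simp [L_one]
  | succ k ih =>
    rw [pow_succ', L_mul]
    change L (T i j h c) (L (T i j h c ^ k) x) i' = _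
    have hj : L (T i j h c ^ k) x j = x j := by
      have : ∀ k : ℕ, L (T i j h c ^ k) x j = x j := by
        intro k
        induction k with
        | zero => simp [L_one]
        | succ k ih =>
          rw [pow_succ', L_mul]
          change L (T i j h c) (L (T i j h c ^ k) x) j = _
          rw [T_apply, ih]
          simp [h.symm]
      exact this k
    rw [T_apply, ih, hj]
    split_ifs with h1
    · push_cast
      ring
    · ring

/-! ### Definitions used in the statement -/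

section Defs

variable {n : ℕ} (G : Type) [Group G] {M : Type} [TopologicalSpace M]
  [ChartedSpace (EuclideanSpace ℝ (Fin n)) M] [MulAction G M]

/-- The derivative representation at `p`: the derivative at `p` of an element of the stabilizer
of `p`, an endomorphism of the tangent space at `p`, which is `ℝ^n`. -/
noncomputable def derivRep (p : M) (γ : MulAction.stabilizer G p) :
    EuclideanSpace ℝ (Fin n) →L[ℝ] EuclideanSpace ℝ (Fin n) :=
  mfderiv (𝓡 n) (𝓡 n) (fun x : M => (γ : G) • x) p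

/-- `p` is periodic (its orbit is finite) and isolated (it has a neighbourhood containing no
other point fixed by the stabilizer of `p`). -/
def IsIsolatedPeriodic (p : M) : Prop :=
  (MulAction.orbit G p).Finite ∧
    ∃ V ∈ 𝓝 p, ∀ x ∈ V, (∀ γ ∈ MulAction.stabilizer G p, γ • x = x) → x = p

/-- The derivative at `p` is unbounded. -/
def HasUnboundedDeriv (p : M) : Prop :=
  ¬ Bornology.IsBounded (Set.range (derivRep (n := n) G p))

/-- The germ of the action at `p` is topologically conjugate to the linear action `ρ_p`: there is a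
homeomorphism `φ` (with inverse `ψ`) from an open neighbourhood `V` of `p` onto an open set, with
`φ p = 0`, such that every `γ` in the stabilizer of `p` satisfies `φ ∘ γ = ρ(γ) ∘ φ` near `p`. -/
def TopLinearizableNear (p : M) : Prop :=
  ∃ (V : Set M) (φ : M → EuclideanSpace ℝ (Fin n)) (ψ : EuclideanSpace ℝ (Fin n) → M),
    IsOpen V ∧ p ∈ V ∧ IsOpen (φ '' V) ∧ φ p = 0 ∧
    ContinuousOn φ V ∧ ContinuousOn ψ (φ '' V) ∧ (∀ x ∈ V, ψ (φ x) = x) ∧
    ∀ γ : MulAction.stabilizer G p, ∀ᶠ x in 𝓝 p, φ ((γ : G) • x) = derivRep G p γ (φ x)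

/-- There is an open neighbourhood `U` of `p`, invariant under the stabilizer of `p`, on which the
action of the stabilizer is conjugate, by a homeomorphism `φ : U → ℝ^n` with inverse `ψ`, to the
linear action on all of `ℝ^n` given by the derivative representation. -/
def HasInvariantLinearNhd (p : M) : Prop :=
  ∃ (U : Set M) (φ : M → EuclideanSpace ℝ (Fin n)) (ψ : EuclideanSpace ℝ (Fin n) → M),
    IsOpen U ∧ p ∈ U ∧ (∀ γ ∈ MulAction.stabilizer G p, ∀ x ∈ U, γ • x ∈ U) ∧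
    ContinuousOn φ U ∧ Continuous ψ ∧ (∀ y, ψ y ∈ U) ∧
    (∀ x ∈ U, ψ (φ x) = x) ∧ (∀ y, φ (ψ y) = y) ∧
    ∀ γ : MulAction.stabilizer G p, ∀ x ∈ U, φ ((γ : G) • x) = derivRep G p γ (φ x)

end Defs

/-! ### The free subgroup -/

lemma h01 : (0 : Fin 2) ≠ 1 := by decide

/-- The generators `[[1,2],[0,1]]` and `[[1,0],[2,1]]` of Sanov's subgroup. -/
def gen : Fin 2 → SL(2, ℤ) := ![T 0 1 h01 2, T 1 0 h01.symm 2]

/-- Sanov's subgroup of `SL(2,ℤ)`. -/
def Γ0 : Subgroup SL(2, ℤ) := (FreeGroup.lift gen).range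

def gA : GL (Fin 2) ℚ :=
  ⟨!![1, 2; 0, 1], !![1, -2; 0, 1],
    by ext i j; fin_cases i <;> fin_cases j <;> norm_num [Matrix.mul_apply, Fin.sum_univ_two],
    by ext i j; fin_cases i <;> fin_cases j <;> norm_num [Matrix.mul_apply, Fin.sum_univ_two]⟩

def gB : GL (Fin 2) ℚ :=
  ⟨!![1, 0; 2, 1], !![1, 0; -2, 1],
    by ext i j; fin_cases i <;> fin_cases j <;> norm_num [Matrix.mul_apply, Fin.sum_univ_two],
    by ext i j; fin_cases i <;> fin_cases j <;> norm_num [Matrix.mul_apply, Fin.sum_univ_two]⟩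

def XX : Fin 2 → Set (OnePoint ℚ) :=
  ![{z | z.elim True (fun t => 1 < t)}, {z | z.elim False (fun t => 0 ≤ t ∧ t ≤ 1)}]

def YY : Fin 2 → Set (OnePoint ℚ) :=
  ![{z | z.elim False (fun t => t ≤ -1)}, {z | z.elim False (fun t => -1 < t ∧ t < 0)}]

open scoped Function Pointwise in
theorem rho_injective : Function.Injective (FreeGroup.lift ![gA, gB]) := by
  apply FreeGroup.injective_lift_of_ping_pong ![gA, gB] XX YY
  · intro i
    fin_cases i
    · exact ⟨OnePoint.infty, by simp [XX]⟩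
    · exact ⟨((0 : ℚ) : OnePoint ℚ), by simp [XX]⟩
  · intro i j hij
    rw [Function.onFun, Set.disjoint_left]
    intro z h1 h2
    induction z using OnePoint.rec <;> fin_cases i <;> fin_cases j <;> simp_all [XX] <;> linarith
  · intro i j hij
    rw [Function.onFun, Set.disjoint_left]
    intro z h1 h2
    induction z using OnePoint.rec <;> fin_cases i <;> fin_cases j <;> simp_all [YY] <;> linarith
  · intro i j
    rw [Set.disjoint_left]
    intro z h1 h2
    induction z using OnePoint.rec <;> fin_cases i <;> fin_cases j <;> simp_all [XX, YY] <;> linarith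
  · intro i
    rw [Set.smul_set_subset_iff]
    intro z hz
    induction z using OnePoint.rec with
    | infty =>
      rw [OnePoint.smul_infty_eq_ite]
      fin_cases i <;> simp_all [XX, YY, gA, gB]
      norm_num
    | coe t =>
      rw [OnePoint.smul_some_eq_ite]
      fin_cases i <;> simp_all [XX, YY, gA, gB]
      · linarith
      · rcases le_or_gt t (-1) with h | h
        · have h1 : 2 * t + 1 < 0 := by linarith
          rw [if_neg h1.ne]
          simp only [OnePoint.elim_some]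
          exact ⟨div_nonneg_of_nonpos (by linarith) h1.le, by rw [div_le_one_of_neg h1]; linarith⟩
        · have h0 := hz h
          have h1 : 0 < 2 * t + 1 := by linarith
          rw [if_neg h1.ne']
          simp only [OnePoint.elim_some]
          exact ⟨div_nonneg h0 h1.le, by rw [div_le_one h1]; linarith⟩
  · intro i
    rw [Set.smul_set_subset_iff]
    intro z hz
    induction z using OnePoint.rec with
    | infty =>
      rw [OnePoint.smul_infty_eq_ite]
      fin_cases i <;> simp_all [XX, YY, gA, gB]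
      norm_num
    | coe t =>
      rw [OnePoint.smul_some_eq_ite]
      fin_cases i <;> simp_all [XX, YY, gA, gB]
      · linarith
      · rcases lt_or_ge t 0 with h | h
        · have h1 : 0 < -(2 * t) + 1 := by linarith
          rw [if_neg h1.ne']
          simp only [OnePoint.elim_some]
          exact ⟨by rw [lt_div_iff₀ h1]; linarith, div_neg_of_neg_of_pos h h1⟩
        · have h0 := hz h
          have h1 : -(2 * t) + 1 < 0 := by linarith
          rw [if_neg h1.ne]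
          simp only [OnePoint.elim_some]
          exact ⟨by rw [lt_div_iff_of_neg h1]; linarith, div_neg_of_pos_of_neg (by linarith) h1⟩


theorem mapGL_entry (g : SL(2, ℤ)) (j k : Fin 2) :
    ((Matrix.SpecialLinearGroup.mapGL ℚ g : GL (Fin 2) ℚ) : Matrix (Fin 2) (Fin 2) ℚ) j k =
      ((g.1 j k : ℤ) : ℚ) := rfl

theorem gen_free : Function.Injective (FreeGroup.lift gen) := by
  have h : (Matrix.SpecialLinearGroup.mapGL ℚ).comp (FreeGroup.lift gen) =
      FreeGroup.lift ![gA, gB] := by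
    apply FreeGroup.ext_hom
    intro i
    apply Units.ext
    ext j k
    rw [MonoidHom.comp_apply, mapGL_entry]
    fin_cases i <;> fin_cases j <;> fin_cases k <;>
      simp [gen, T, Matrix.transvection, Matrix.single, gA, gB]
  have h2 := rho_injective
  rw [← h, MonoidHom.coe_comp] at h2
  exact Function.Injective.of_comp h2

/-- a matrix in `SL(2,ℤ)` -/
def mk2 (a b c d : ℤ) (h : a * d - b * c = 1) : SL(2, ℤ) :=
  ⟨!![a, b; c, d], by rw [Matrix.det_fin_two_of]; exact h⟩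

/-- the twelve representatives -/
def rp : Fin 12 → SL(2, ℤ) := ![mk2 1 0 0 1 (by norm_num), mk2 0 (-1) 1 0 (by norm_num),
  mk2 1 1 0 1 (by norm_num), mk2 (-1) 0 0 (-1) (by norm_num), mk2 1 (-1) 1 0 (by norm_num),
  mk2 0 (-1) 1 1 (by norm_num), mk2 0 1 (-1) 0 (by norm_num), mk2 (-1) (-1) 0 (-1) (by norm_num),
  mk2 (-1) 0 1 (-1) (by norm_num), mk2 1 0 1 1 (by norm_num), mk2 (-1) 1 (-1) 0 (by norm_num),
  mk2 0 1 (-1) (-1) (by norm_num)]

/-- the seven elements of the subgroup -/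
def wd : Fin 7 → SL(2, ℤ) := ![mk2 1 0 0 1 (by norm_num), mk2 1 2 0 1 (by norm_num),
  mk2 1 (-2) 0 1 (by norm_num), mk2 1 0 2 1 (by norm_num), mk2 1 0 (-2) 1 (by norm_num),
  mk2 (-3) (-2) 2 1 (by norm_num), mk2 1 2 (-2) (-3) (by norm_num)]

theorem tabS : ∀ i : Fin 12, mk2 0 (-1) 1 0 (by norm_num) * rp i =
    rp (![1, 3, 5, 6, 8, 7, 0, 11, 10, 4, 9, 2] i) * wd (![0, 0, 0, 0, 0, 0, 0, 0, 0, 3, 4, 0] i) := by
  decide +kernel

theorem tabT : ∀ i : Fin 12, mk2 1 1 0 1 (by norm_num) * rp i =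
    rp (![2, 4, 0, 7, 1, 9, 10, 3, 5, 11, 6, 8] i) * wd (![0, 0, 1, 0, 4, 0, 0, 1, 2, 5, 4, 3] i) := by
  decide +kernel

theorem tabSi : ∀ i : Fin 12, mk2 0 1 (-1) 0 (by norm_num) * rp i =
    rp (![6, 0, 11, 1, 9, 2, 3, 5, 4, 10, 8, 7] i) * wd (![0, 0, 0, 0, 4, 0, 0, 0, 0, 3, 0, 0] i) := by
  decide +kernel

theorem tabTi : ∀ i : Fin 12, mk2 1 (-1) 0 1 (by norm_num) * rp i =
    rp (![2, 4, 0, 7, 1, 8, 10, 3, 11, 5, 6, 9] i) * wd (![2, 3, 0, 2, 0, 1, 3, 0, 4, 0, 0, 6] i) := by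
  decide +kernel

theorem gen0_mem : mk2 1 2 0 1 (by norm_num) ∈ Γ0 := by
  refine ⟨FreeGroup.of 0, ?_⟩
  rw [FreeGroup.lift_apply_of]
  decide +kernel

theorem gen1_mem : mk2 1 0 2 1 (by norm_num) ∈ Γ0 := by
  refine ⟨FreeGroup.of 1, ?_⟩
  rw [FreeGroup.lift_apply_of]
  decide +kernel

theorem wd_mem : ∀ k : Fin 7, wd k ∈ Γ0 := by
  have hA := gen0_mem
  have hB := gen1_mem
  have hAi := Γ0.inv_mem hA
  have hBi := Γ0.inv_mem hB
  have e0 : wd 0 = 1 := by decide +kernel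
  have e1 : wd 1 = mk2 1 2 0 1 (by norm_num) := rfl
  have e2 : wd 2 = (mk2 1 2 0 1 (by norm_num))⁻¹ := by decide +kernel
  have e3 : wd 3 = mk2 1 0 2 1 (by norm_num) := rfl
  have e4 : wd 4 = (mk2 1 0 2 1 (by norm_num))⁻¹ := by decide +kernel
  have e5 : wd 5 = (mk2 1 2 0 1 (by norm_num))⁻¹ * mk2 1 0 2 1 (by norm_num) := by decide +kernel
  have e6 : wd 6 = (mk2 1 0 2 1 (by norm_num))⁻¹ * mk2 1 2 0 1 (by norm_num) := by decide +kernel
  intro k
  fin_cases k
  · show wd 0 ∈ Γ0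
    rw [e0]; exact Γ0.one_mem
  · exact hA
  · show wd 2 ∈ Γ0
    rw [e2]; exact hAi
  · exact hB
  · show wd 4 ∈ Γ0
    rw [e4]; exact hBi
  · show wd 5 ∈ Γ0
    rw [e5]; exact Γ0.mul_mem hAi hB
  · show wd 6 ∈ Γ0
    rw [e6]; exact Γ0.mul_mem hBi hA

theorem step_aux (x : SL(2, ℤ)) (jx : Fin 12 → Fin 12) (kx : Fin 12 → Fin 7)
    (h : ∀ i, x * rp i = rp (jx i) * wd (kx i)) (g : SL(2, ℤ))
    (hg : ∃ i, ∃ c ∈ Γ0, g = rp i * c) : ∃ i, ∃ c ∈ Γ0, x * g = rp i * c := by
  obtain ⟨i, c, hc, rfl⟩ := hg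
  refine ⟨jx i, wd (kx i) * c, Γ0.mul_mem (wd_mem _) hc, ?_⟩
  rw [← mul_assoc, h i, mul_assoc]

theorem cover (g : SL(2, ℤ)) : ∃ i, ∃ c ∈ Γ0, g = rp i * c := by
  have hg : g ∈ Subgroup.closure {ModularGroup.S, ModularGroup.T} := by
    rw [SpecialLinearGroup.SL2Z_generators]; exact Subgroup.mem_top g
  have eS : ModularGroup.S = mk2 0 (-1) 1 0 (by norm_num) := rfl
  have eT : ModularGroup.T = mk2 1 1 0 1 (by norm_num) := rfl
  have eSi : ModularGroup.S⁻¹ = mk2 0 1 (-1) 0 (by norm_num) := by decide +kernel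
  have eTi : ModularGroup.T⁻¹ = mk2 1 (-1) 0 1 (by norm_num) := by decide +kernel
  induction hg using Subgroup.closure_induction_left with
  | one => exact ⟨0, 1, Γ0.one_mem, by decide +kernel⟩
  | mul_left x hx y hy ih =>
    rcases hx with rfl | hx
    · rw [eS]; exact step_aux _ _ _ tabS _ ih
    · rw [Set.mem_singleton_iff] at hx
      subst hx
      rw [eT]; exact step_aux _ _ _ tabT _ ih
  | inv_mul_cancel x hx y hy ih =>
    rcases hx with rfl | hx
    · rw [eSi]; exact step_aux _ _ _ tabSi _ ih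
    · rw [Set.mem_singleton_iff] at hx
      subst hx
      rw [eTi]; exact step_aux _ _ _ tabTi _ ih

theorem finiteIndex_Γ0 : Γ0.FiniteIndex := by
  have hsurj : Function.Surjective (fun i : Fin 12 => (rp i : SL(2, ℤ) ⧸ Γ0)) := by
    intro q
    induction q using QuotientGroup.induction_on with
    | H g =>
      obtain ⟨i, c, hc, rfl⟩ := cover g
      refine ⟨i, ?_⟩
      show ((rp i : SL(2, ℤ)) : SL(2, ℤ) ⧸ Γ0) = ((rp i * c : SL(2, ℤ)) : SL(2, ℤ) ⧸ Γ0)
      rw [QuotientGroup.eq]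
      rw [inv_mul_cancel_left]
      exact hc
  have : Finite (SL(2, ℤ) ⧸ Γ0) := Finite.of_surjective _ hsurj
  exact Subgroup.finiteIndex_of_finite_quotient

/-! ### The action on the plane -/

/-- `F(x,y) = (x + 2 (y + x^3), y + x^3)`. -/
noncomputable def F (v : E 2) : E 2 :=
  WithLp.toLp 2 ![v 0 + 2 * (v 1 + v 0 ^ 3), v 1 + v 0 ^ 3]

/-- The inverse of `F`. -/
noncomputable def G (w : E 2) : E 2 :=
  WithLp.toLp 2 ![w 0 - 2 * w 1, w 1 - (w 0 - 2 * w 1) ^ 3]

lemma G_F (v : E 2) : G (F v) = v := by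
  ext i
  fin_cases i
  · simp [F, G]
  · simp [F, G]

lemma F_G (v : E 2) : F (G v) = v := by
  ext i
  fin_cases i
  · simp [F, G]
  · simp [F, G]

/-- `F` as a permutation of the plane. -/
noncomputable def Fp : Equiv.Perm (E 2) := ⟨F, G, G_F, F_G⟩

lemma L_inv_L {n : ℕ} (A : SL(n, ℤ)) (x : E n) : L A⁻¹ (L A x) = x := by
  have : L (A⁻¹ * A) x = L A⁻¹ (L A x) := by rw [L_mul]; rfl
  rw [← this, inv_mul_cancel, L_one]
  rfl

lemma L_L_inv {n : ℕ} (A : SL(n, ℤ)) (x : E n) : L A (L A⁻¹ x) = x := by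
  have : L (A * A⁻¹) x = L A (L A⁻¹ x) := by rw [L_mul]; rfl
  rw [← this, mul_inv_cancel, L_one]
  rfl

/-- A linear map as a permutation of the plane. -/
noncomputable def Lp (A : SL(2, ℤ)) : Equiv.Perm (E 2) := ⟨L A, L A⁻¹, L_inv_L A, L_L_inv A⟩

/-- The action of the free group: the first generator acts by `F`, the second one linearly. -/
noncomputable def act : FreeGroup (Fin 2) →* Equiv.Perm (E 2) :=
  FreeGroup.lift ![Fp, Lp (gen 1)]

/-- The free group of rank two is isomorphic to Sanov's subgroup. -/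
noncomputable def iso : FreeGroup (Fin 2) ≃* Γ0 := MonoidHom.ofInjective gen_free

lemma iso_symm (γ : Γ0) : FreeGroup.lift gen (iso.symm γ) = (γ : SL(2, ℤ)) := by
  have : iso (iso.symm γ) = γ := iso.apply_symm_apply γ
  exact congrArg (Subtype.val) this

/-- The action of Sanov's subgroup on the plane. -/
noncomputable instance instAct : MulAction Γ0 (E 2) :=
  MulAction.compHom (E 2) (act.comp iso.symm.toMonoidHom)

lemma smul_eq (γ : Γ0) (v : E 2) : γ • v = act (iso.symm γ) v := rfl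

/-- The element of `Γ0` given by the first generator. -/
noncomputable def γA : Γ0 := iso (FreeGroup.of 0)

lemma γA_val : (γA : SL(2, ℤ)) = T 0 1 h01 2 := by
  change FreeGroup.lift gen (FreeGroup.of 0) = _
  rw [FreeGroup.lift_apply_of]
  rfl

lemma γA_smul (v : E 2) : γA • v = F v := by
  rw [smul_eq, γA, MulEquiv.symm_apply_apply, act, FreeGroup.lift_apply_of]
  rfl

lemma γA_pow_smul (k : ℕ) (v : E 2) : γA ^ k • v = F^[k] v := by
  induction k with
  | zero => simp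
  | succ k ih => rw [pow_succ', mul_smul, ih, γA_smul, Function.iterate_succ_apply']


lemma ap_coord (i : Fin 2) : ContDiff ℝ ∞ (fun v : E 2 => v i) :=
  (EuclideanSpace.proj i : E 2 →L[ℝ] ℝ).contDiff

lemma ap_coord' (i : Fin 2) (x : E 2) :
    HasFDerivAt (fun v : E 2 => v i) (EuclideanSpace.proj i : E 2 →L[ℝ] ℝ) x :=
  (EuclideanSpace.proj i : E 2 →L[ℝ] ℝ).hasFDerivAt

lemma ap_F_smooth : ContDiff ℝ ∞ F := by
  rw [contDiff_euclidean]
  intro i
  fin_cases i
  · exact (ap_coord 0).add (contDiff_const.mul ((ap_coord 1).add ((ap_coord 0).pow 3)))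
  · exact (ap_coord 1).add ((ap_coord 0).pow 3)

lemma ap_G_smooth : ContDiff ℝ ∞ G := by
  rw [contDiff_euclidean]
  intro i
  fin_cases i
  · exact (ap_coord 0).sub (contDiff_const.mul (ap_coord 1))
  · exact (ap_coord 1).sub (((ap_coord 0).sub (contDiff_const.mul (ap_coord 1))).pow 3)

lemma ap_F_zero : F 0 = 0 := by
  ext i
  fin_cases i
  · show (0 : ℝ) + 2 * (0 + 0 ^ 3) = 0
    norm_num
  · show (0 : ℝ) + 0 ^ 3 = 0
    norm_num

lemma ap_G_zero : G 0 = 0 := by
  have h := G_F 0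
  rwa [ap_F_zero] at h

lemma ap_F_deriv : HasFDerivAt F (L (gen 0)) 0 := by
  rw [← hasFDerivWithinAt_univ, hasFDerivWithinAt_euclidean]
  intro i
  rw [hasFDerivWithinAt_univ]
  fin_cases i
  · have h := (ap_coord' 0 0).add (((ap_coord' 1 0).add ((ap_coord' 0 0).pow 3)).const_mul 2)
    refine HasFDerivAt.congr_fderiv h ?_
    ext v
    have h1 : L (gen 0) v 0 = v 0 + if (0 : Fin 2) = 0 then ((2 : ℤ) : ℝ) * v 1 else 0 :=
      T_apply 0 1 h01 2 v 0
    show _ = L (gen 0) v 0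
    rw [h1]
    simp
  · have h := (ap_coord' 1 0).add ((ap_coord' 0 0).pow 3)
    refine HasFDerivAt.congr_fderiv h ?_
    ext v
    have h1 : L (gen 0) v 1 = v 1 + if (1 : Fin 2) = 0 then ((2 : ℤ) : ℝ) * v 1 else 0 :=
      T_apply 0 1 h01 2 v 1
    show _ = L (gen 0) v 1
    rw [h1]
    simp

lemma ap_inv_apply (w : E 2) : L (gen 0)⁻¹ w = WithLp.toLp 2 ![w 0 - 2 * w 1, w 1] := by
  have h1 : L (gen 0) (WithLp.toLp 2 ![w 0 - 2 * w 1, w 1]) = w := by
    ext i
    have h2 := T_apply 0 1 h01 2 (WithLp.toLp 2 ![w 0 - 2 * w 1, w 1]) i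
    have h3 : L (gen 0) (WithLp.toLp 2 ![w 0 - 2 * w 1, w 1]) i =
      L (T 0 1 h01 2) (WithLp.toLp 2 ![w 0 - 2 * w 1, w 1]) i := rfl
    rw [h3, h2]
    fin_cases i
    · simp
    · simp
  rw [← L_inv_L (gen 0) (WithLp.toLp 2 ![w 0 - 2 * w 1, w 1]), h1]

lemma ap_G_deriv : HasFDerivAt G (L (gen 0)⁻¹) 0 := by
  rw [← hasFDerivWithinAt_univ, hasFDerivWithinAt_euclidean]
  intro i
  rw [hasFDerivWithinAt_univ]
  fin_cases i
  · have h := (ap_coord' 0 0).sub ((ap_coord' 1 0).const_mul 2)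
    refine HasFDerivAt.congr_fderiv h ?_
    ext v
    show _ = L (gen 0)⁻¹ v 0
    rw [ap_inv_apply]
    simp
  · have h := (ap_coord' 1 0).sub (((ap_coord' 0 0).sub ((ap_coord' 1 0).const_mul 2)).pow 3)
    refine HasFDerivAt.congr_fderiv h ?_
    ext v
    show _ = L (gen 0)⁻¹ v 1
    rw [ap_inv_apply]
    simp

lemma act_prop (w : FreeGroup (Fin 2)) : ContDiff ℝ ∞ (act w) ∧ act w 0 = 0 ∧
    HasFDerivAt (act w) (L (FreeGroup.lift gen w)) 0 := by
  have hof0 : act (FreeGroup.of 0) = Fp := by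
    rw [act, FreeGroup.lift_apply_of]
    rfl
  have hof1 : act (FreeGroup.of 1) = Lp (gen 1) := by
    rw [act, FreeGroup.lift_apply_of]
    rfl
  induction w using FreeGroup.induction_on with
  | C1 =>
    rw [map_one, map_one, L_one]
    exact ⟨contDiff_id, rfl, hasFDerivAt_id 0⟩
  | of x =>
    change ContDiff ℝ ∞ (act (FreeGroup.of x)) ∧ act (FreeGroup.of x) 0 = 0 ∧
      HasFDerivAt (act (FreeGroup.of x)) (L (FreeGroup.lift gen (FreeGroup.of x))) 0
    rw [FreeGroup.lift_apply_of]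
    fin_cases x
    · change ContDiff ℝ ∞ (act (FreeGroup.of 0)) ∧ act (FreeGroup.of 0) 0 = 0 ∧
        HasFDerivAt (act (FreeGroup.of 0)) (L (gen 0)) 0
      rw [hof0]
      exact ⟨ap_F_smooth, ap_F_zero, ap_F_deriv⟩
    · change ContDiff ℝ ∞ (act (FreeGroup.of 1)) ∧ act (FreeGroup.of 1) 0 = 0 ∧
        HasFDerivAt (act (FreeGroup.of 1)) (L (gen 1)) 0
      rw [hof1]
      exact ⟨(L (gen 1)).contDiff, (L (gen 1)).map_zero, (L (gen 1)).hasFDerivAt⟩
  | inv_of x _ =>
    change ContDiff ℝ ∞ (act (FreeGroup.of x)⁻¹) ∧ act (FreeGroup.of x)⁻¹ 0 = 0 ∧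
      HasFDerivAt (act (FreeGroup.of x)⁻¹) (L (FreeGroup.lift gen (FreeGroup.of x)⁻¹)) 0
    rw [map_inv, map_inv, FreeGroup.lift_apply_of]
    fin_cases x
    · change ContDiff ℝ ∞ ((act (FreeGroup.of 0))⁻¹ : Equiv.Perm (E 2)) ∧ (act (FreeGroup.of 0))⁻¹ 0 = 0 ∧
        HasFDerivAt ((act (FreeGroup.of 0))⁻¹ : Equiv.Perm (E 2)) (L (gen 0)⁻¹) 0
      rw [hof0]
      exact ⟨ap_G_smooth, ap_G_zero, ap_G_deriv⟩
    · change ContDiff ℝ ∞ ((act (FreeGroup.of 1))⁻¹ : Equiv.Perm (E 2)) ∧ (act (FreeGroup.of 1))⁻¹ 0 = 0 ∧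
        HasFDerivAt ((act (FreeGroup.of 1))⁻¹ : Equiv.Perm (E 2)) (L (gen 1)⁻¹) 0
      rw [hof1]
      exact ⟨(L (gen 1)⁻¹).contDiff, (L (gen 1)⁻¹).map_zero, (L (gen 1)⁻¹).hasFDerivAt⟩
  | mul x y hx hy =>
    obtain ⟨hx1, hx2, hx3⟩ := hx
    obtain ⟨hy1, hy2, hy3⟩ := hy
    rw [map_mul, map_mul, L_mul]
    refine ⟨hx1.comp hy1, ?_, ?_⟩
    · show act x (act y 0) = 0
      rw [hy2, hx2]
    · have h : HasFDerivAt (act x) (L (FreeGroup.lift gen x)) (act y 0) := by
        rw [hy2]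
        exact hx3
      exact h.comp 0 hy3


lemma F_periodic (k : ℕ) (hk : 0 < k) (v : E 2) (h : F^[k] v = v) : v = 0 := by
  have hy : ∀ j, (F^[j+1] v) 1 = (F^[j] v) 1 + (F^[j] v) 0 ^ 3 := by
    intro j
    rw [Function.iterate_succ_apply']
    simp [F]
  have hx : ∀ j, (F^[j+1] v) 0 = (F^[j] v) 0 + 2 * ((F^[j] v) 1 + (F^[j] v) 0 ^ 3) := by
    intro j
    rw [Function.iterate_succ_apply']
    simp [F]
  have hrec : ∀ j, (F^[j+2] v) 0 - 2 * (F^[j+1] v) 0 + (F^[j] v) 0 = 2 * (F^[j+1] v) 0 ^ 3 := by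
    intro j
    have h1 := hx j
    have h2 := hx (j+1)
    have h3 := hy j
    rw [h3] at h2
    linarith
  have hper : ∀ j, F^[j + k] v = F^[j] v := by
    intro j
    rw [Function.iterate_add_apply, h]
  have hper2 : ∀ q r, F^[r + k * q] v = F^[r] v := by
    intro q
    induction q with
    | zero => intro r; simp
    | succ q ih =>
      intro r
      rw [show r + k * (q + 1) = (r + k * q) + k from by ring, hper, ih]
  have hmod : ∀ j, F^[j] v = F^[j % k] v := by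
    intro j
    conv_lhs => rw [← Nat.mod_add_div j k]
    exact hper2 _ _
  obtain ⟨m, _, hmax⟩ := Finset.exists_max_image (Finset.range k) (fun j => (F^[j] v) 0)
    ⟨0, Finset.mem_range.2 hk⟩
  obtain ⟨m', _, hmin⟩ := Finset.exists_min_image (Finset.range k) (fun j => (F^[j] v) 0)
    ⟨0, Finset.mem_range.2 hk⟩
  have hM : ∀ j, (F^[j] v) 0 ≤ (F^[m] v) 0 := by
    intro j
    rw [hmod j]
    exact hmax _ (Finset.mem_range.2 (Nat.mod_lt _ hk))
  have hm : ∀ j, (F^[m'] v) 0 ≤ (F^[j] v) 0 := by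
    intro j
    rw [hmod j]
    exact hmin _ (Finset.mem_range.2 (Nat.mod_lt _ hk))
  have hM0 : (F^[m] v) 0 ≤ 0 := by
    have h1 := hrec (m + k - 1)
    rw [show m + k - 1 + 1 = m + k from by omega, hper m] at h1
    have h2 := hM (m + k - 1 + 2)
    have h3 := hM (m + k - 1)
    by_contra hc
    push Not at hc
    have : 0 < (F^[m] v) 0 ^ 3 := by positivity
    linarith
  have hm0 : 0 ≤ (F^[m'] v) 0 := by
    have h1 := hrec (m' + k - 1)
    rw [show m' + k - 1 + 1 = m' + k from by omega, hper m'] at h1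
    have h2 := hm (m' + k - 1 + 2)
    have h3 := hm (m' + k - 1)
    by_contra hc
    push Not at hc
    have : (F^[m'] v) 0 ^ 3 < 0 := by
      have h4 : 0 < (F^[m'] v) 0 ^ 2 := by
        rw [sq]
        exact mul_pos_of_neg_of_neg hc hc
      have : (F^[m'] v) 0 ^ 3 = (F^[m'] v) 0 ^ 2 * (F^[m'] v) 0 := by ring
      rw [this]
      exact mul_neg_of_pos_of_neg h4 hc
    linarith
  have hz : ∀ j, (F^[j] v) 0 = 0 := fun j => le_antisymm ((hM j).trans hM0) (hm0.trans (hm j))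
  have h0 := hx 0
  rw [hz 0, hz (0+1)] at h0
  have hv0 : v 0 = 0 := hz 0
  have hv1 : v 1 = 0 := by
    have : (F^[0] v) 1 = 0 := by linarith
    exact this
  ext i
  fin_cases i
  · exact hv0
  · exact hv1


lemma not_lin (hder : ∀ γ : MulAction.stabilizer Γ0 (0 : E 2),
      derivRep (n := 2) Γ0 (0 : E 2) γ = L ((γ : Γ0) : SL(2, ℤ)))
    (hfix : ∀ γ : Γ0, γ • (0 : E 2) = 0) (hF : ∀ v : E 2, F v = v → v = 0)
    (hFc : Continuous F) :
    ¬ TopLinearizableNear (n := 2) Γ0 (0 : E 2) := by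
  rintro ⟨V, φ, ψ, hV, h0V, hφV, hφ0, hφc, hψc, hψφ, hgerm⟩
  have hψ0 : ψ 0 = 0 := by
    have := hψφ 0 h0V
    rwa [hφ0] at this
  have h0 : (0 : E 2) ∈ φ '' V := ⟨0, h0V, hφ0⟩
  have hg' : ∀ᶠ x in 𝓝 (0 : E 2), φ (F x) = L (T 0 1 h01 2) (φ x) := by
    have hg := hgerm ⟨γA, MulAction.mem_stabilizer_iff.2 (hfix γA)⟩
    filter_upwards [hg] with x hx
    rw [hder] at hx
    have e2 : (γA • x) = F x := γA_smul x
    rw [← e2, ← γA_val]
    exact hx
  obtain ⟨e, he⟩ : ∃ e : ℝ → E 2, e = fun t => EuclideanSpace.single (0 : Fin 2) t := ⟨_, rfl⟩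
  have hec : Continuous e := by
    rw [he]
    have : (fun t : ℝ => EuclideanSpace.single (0 : Fin 2) t) =
        fun t : ℝ => t • (EuclideanSpace.single (0 : Fin 2) (1 : ℝ)) := by
      funext t
      ext i
      simp
    rw [this]
    fun_prop
  have he0 : e 0 = 0 := by
    rw [he]
    ext i
    simp
  have hLe : ∀ t, L (T 0 1 h01 2) (e t) = e t := by
    intro t
    ext k
    rw [T_apply]
    have : e t 1 = 0 := by
      rw [he]
      simp
    rw [this]
    simp
  have hψat : ContinuousAt ψ 0 := hψc.continuousAt (hφV.mem_nhds h0)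
  have het : Filter.Tendsto e (𝓝 0) (𝓝 0) := by
    have := hec.tendsto 0
    rwa [he0] at this
  have hz : Filter.Tendsto (fun t => ψ (e t)) (𝓝 0) (𝓝 0) := by
    have h2 := hψat.tendsto.comp het
    rw [hψ0] at h2
    exact h2
  have hF0 : F 0 = 0 := by
    rw [← γA_smul]
    exact hfix γA
  have ev1 : ∀ᶠ t in 𝓝 (0:ℝ), e t ∈ φ '' V := het.eventually (hφV.mem_nhds h0)
  have ev2 : ∀ᶠ t in 𝓝 (0:ℝ), φ (F (ψ (e t))) = L (T 0 1 h01 2) (φ (ψ (e t))) :=
    hz.eventually hg'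
  have ev3 : ∀ᶠ t in 𝓝 (0:ℝ), F (ψ (e t)) ∈ V := by
    have h3 : Filter.Tendsto (fun t => F (ψ (e t))) (𝓝 0) (𝓝 0) := by
      have h4 := (hFc.tendsto 0).comp hz
      rw [hF0] at h4
      exact h4
    exact h3.eventually (hV.mem_nhds h0V)
  have ev4 : ∀ᶠ t in 𝓝[≠] (0:ℝ), e t ∈ φ '' V ∧
      φ (F (ψ (e t))) = L (T 0 1 h01 2) (φ (ψ (e t))) ∧ F (ψ (e t)) ∈ V :=
    (ev1.and (ev2.and ev3)).filter_mono nhdsWithin_le_nhds
  obtain ⟨t, ⟨h1, h2, h3⟩, ht⟩ := (ev4.and self_mem_nhdsWithin).exists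
  obtain ⟨x, hx, hxe⟩ := h1
  have hz1 : ψ (e t) = x := by
    rw [← hxe]
    exact hψφ x hx
  rw [hz1, hxe, hLe] at h2
  rw [hz1] at h3
  have h4 : F x = x := by
    have h5 := hψφ (F x) h3
    rw [h2, hz1] at h5
    exact h5.symm
  have h5 := hF x h4
  rw [h5, hφ0] at hxe
  apply ht
  have h6 : e t 0 = 0 := by
    rw [← hxe]
    rfl
  rw [he] at h6
  simpa using h6

lemma smul_zero' (γ : Γ0) : γ • (0 : E 2) = 0 := (act_prop (iso.symm γ)).2.1

lemma contMDiff_smul (γ : Γ0) : ContMDiff (𝓡 2) (𝓡 2) ∞ (fun v : E 2 => γ • v) := by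
  have h : ContDiff ℝ ∞ (fun v : E 2 => γ • v) := (act_prop (iso.symm γ)).1
  exact h.contMDiff

lemma derivRep_eq (γ : MulAction.stabilizer Γ0 (0 : E 2)) :
    derivRep (n := 2) Γ0 (0 : E 2) γ = L ((γ : Γ0) : SL(2, ℤ)) := by
  have h := (act_prop (iso.symm (γ : Γ0))).2.2
  rw [iso_symm] at h
  have h' : HasMFDerivAt (𝓡 2) (𝓡 2) (fun v : E 2 => (γ : Γ0) • v) 0
      (L ((γ : Γ0) : SL(2, ℤ))) := HasFDerivAt.hasMFDerivAt h
  exact h'.mfderiv

lemma finite_orbit (v : E 2) (h : (MulAction.orbit Γ0 v).Finite) : v = 0 := by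
  have hni : ¬ Function.Injective (fun k : ℕ => (γA ^ k • v : E 2)) := by
    intro hinj
    refine (Set.infinite_range_of_injective hinj) (h.subset ?_)
    rintro _ ⟨k, rfl⟩
    exact ⟨γA ^ k, rfl⟩
  have key : ∀ k k' : ℕ, k < k' → (γA ^ k • v : E 2) = γA ^ k' • v → v = 0 := by
    intro k k' hlt hk
    refine F_periodic (k' - k) (by omega) v ?_
    rw [← γA_pow_smul]
    have h1 : k' = k + (k' - k) := by omega
    rw [h1, pow_add, mul_smul] at hk
    exact (smul_left_cancel _ hk).symm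
  simp only [Function.Injective, not_forall] at hni
  obtain ⟨k, k', hkk, hne⟩ := hni
  rcases lt_or_gt_of_ne hne with hlt | hlt
  · exact key k k' hlt hkk
  · exact key k' k hlt hkk.symm

lemma F_fix (v : E 2) (h : F v = v) : v = 0 := F_periodic 1 one_pos v h

lemma continuous_F : Continuous F := by
  have h := (act_prop (FreeGroup.of 0)).1.continuous
  have : (act (FreeGroup.of 0) : E 2 → E 2) = F := by
    rw [act, FreeGroup.lift_apply_of]
    rfl
  rwa [this] at h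

lemma isolated : IsIsolatedPeriodic Γ0 (0 : E 2) := by
  refine ⟨(Set.finite_singleton (0 : E 2)).subset ?_, Set.univ, Filter.univ_mem, ?_⟩
  · rintro _ ⟨γ, rfl⟩
    exact smul_zero' γ
  · intro x _ hx
    have := hx γA (smul_zero' γA)
    rw [γA_smul] at this
    exact F_fix x this

lemma unbounded_deriv : HasUnboundedDeriv (n := 2) Γ0 (0 : E 2) := by
  intro hb
  obtain ⟨C, hC⟩ := hb.exists_norm_le
  have key : ∀ k : ℕ, (k : ℝ) ≤ C * ‖(EuclideanSpace.single 1 1 : E 2)‖ := by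
    intro k
    have h1 := hC _ ⟨⟨γA ^ k, smul_zero' _⟩, rfl⟩
    rw [derivRep_eq] at h1
    have h2 : ‖L (((γA ^ k : Γ0) : SL(2, ℤ))) (EuclideanSpace.single 1 1 : E 2)‖ ≤
        C * ‖(EuclideanSpace.single 1 1 : E 2)‖ :=
      (ContinuousLinearMap.le_opNorm _ _).trans (mul_le_mul_of_nonneg_right h1 (norm_nonneg _))
    have h3 := PiLp.norm_apply_le
      (L (((γA ^ k : Γ0) : SL(2, ℤ))) (EuclideanSpace.single 1 1 : E 2)) 0
    have h5 : ((γA ^ k : Γ0) : SL(2, ℤ)) = T 0 1 h01 2 ^ k := by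
      rw [SubmonoidClass.coe_pow, γA_val]
    rw [h5] at h2 h3
    rw [T_pow_apply] at h3
    simp at h3
    have h4 : (0 : ℝ) ≤ k := Nat.cast_nonneg k
    linarith
  obtain ⟨k, hk⟩ := exists_nat_gt (C * ‖(EuclideanSpace.single 1 1 : E 2)‖)
  exact absurd (key k) (not_le.2 hk)

lemma γB_val : ((iso (FreeGroup.of 1) : Γ0) : SL(2, ℤ)) = T 1 0 h01.symm 2 := by
  change FreeGroup.lift gen (FreeGroup.of 1) = _
  rw [FreeGroup.lift_apply_of]
  rfl

lemma no_nhd : ¬ HasInvariantLinearNhd (n := 2) Γ0 (0 : E 2) := by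
  rintro ⟨U, φ, ψ, hU, hpU, hinv, hφ, hψ, hψU, hψφ, hφψ, heq⟩
  have hA := heq ⟨γA, smul_zero' _⟩ 0 hpU
  have hB := heq ⟨iso (FreeGroup.of 1), smul_zero' _⟩ 0 hpU
  rw [derivRep_eq] at hA hB
  simp only [smul_zero', γA_val, γB_val] at hA hB
  have h1 : φ 0 1 = 0 := by
    have h := congrArg (fun v : E 2 => v 0) hA
    simp only [T_apply] at h
    simp at h
    exact h
  have h2 : φ 0 0 = 0 := by
    have h := congrArg (fun v : E 2 => v 1) hB
    simp only [T_apply] at h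
    simp at h
    exact h
  have h0 : φ 0 = 0 := by
    ext i
    fin_cases i
    · exact h2
    · exact h1
  have himg : φ '' U = Set.univ := by
    rw [Set.eq_univ_iff_forall]
    exact fun y => ⟨ψ y, hψU y, hφψ y⟩
  refine not_lin derivRep_eq smul_zero' F_fix continuous_F
    ⟨U, φ, ψ, hU, hpU, by rw [himg]; exact isOpen_univ, h0, hφ, hψ.continuousOn, hψφ, ?_⟩
  intro γ
  filter_upwards [hU.mem_nhds hpU] with x hx
  exact heq γ x hx

/-- **Main result.** -/
theorem result : ∃ Γ : Subgroup SL(2, ℤ), Γ.FiniteIndex ∧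
    ∃ (M : Type) (_ : TopologicalSpace M) (_ : ChartedSpace (EuclideanSpace ℝ (Fin 2)) M)
      (_ : MulAction Γ M) (p : M),
      IsManifold (𝓡 2) ∞ M ∧ T2Space M ∧ SecondCountableTopology M ∧ ConnectedSpace M ∧
      (∀ γ : Γ, ContMDiff (𝓡 2) (𝓡 2) ∞ (fun x : M => γ • x)) ∧
      IsIsolatedPeriodic Γ p ∧ (∀ x : M, (MulAction.orbit Γ x).Finite → x = p) ∧
      (∀ γ : Γ, γ • p = p) ∧
      (∀ (γ : MulAction.stabilizer Γ p) (v : EuclideanSpace ℝ (Fin 2)) (i : Fin 2),
        derivRep Γ p γ v i =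
          ∑ j, ((((γ : Γ) : SL(2, ℤ)) : Matrix (Fin 2) (Fin 2) ℤ) i j : ℝ) * v j) ∧
      HasUnboundedDeriv (n := 2) Γ p ∧
      ¬ TopLinearizableNear (n := 2) Γ p ∧
      ¬ HasInvariantLinearNhd (n := 2) Γ p := by
  refine ⟨Γ0, finiteIndex_Γ0, E 2, inferInstance, inferInstance, instAct, 0, inferInstance,
    inferInstance, inferInstance, inferInstance, contMDiff_smul, isolated, finite_orbit,
    smul_zero', ?_, unbounded_deriv, not_lin derivRep_eq smul_zero' F_fix continuous_F,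
    no_nhd⟩
  intro γ v i
  rw [derivRep_eq, L_apply]

end Pool.Agent.Results.MP_2392aa_gt.TwoDimensional
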